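import Mathlib

/-!
# Sub-Riemannian diameter of 3-Sasakian manifolds (MP_d08e19_gt): the statement
-/

namespace Pool.Agent.Helper75.SR

open Set MeasureTheory Bundle Manifold
open scoped Manifold ContDiff Topology

/-- Euclidean space -/
abbrev EE (n : ℕ) := EuclideanSpace ℝ (Fin n)

section

variable {n : ℕ} {M : Type} [TopologicalSpace M] [ChartedSpace (EE n) M]
  [IsManifold (𝓡 n) ∞ M]

/-- Vector fields on `M`. -/
abbrev VF (n : ℕ) (M : Type) [TopologicalSpace M] [ChartedSpace (EE n) M] :=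
  Π x : M, TangentSpace (𝓡 n) x

/-- Smooth Riemannian metrics on `M`. -/
abbrev RMetric (n : ℕ) (M : Type) [TopologicalSpace M] [ChartedSpace (EE n) M]
    [IsManifold (𝓡 n) ∞ M] :=
  ContMDiffRiemannianMetric (𝓡 n) ∞ (EE n) (fun x : M => TangentSpace (𝓡 n) x)

/-- Affine connections on `M`. -/
abbrev Conn (n : ℕ) (M : Type) [TopologicalSpace M] [ChartedSpace (EE n) M]
    [IsManifold (𝓡 n) ∞ M] :=
  CovariantDerivative (𝓡 n) (EE n) (fun x : M => TangentSpace (𝓡 n) x)

/-- A vector field is differentiable at a point. -/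
def DiffAt (Y : VF n M) (x : M) : Prop :=
  MDifferentiableAt (𝓡 n) ((𝓡 n).prod 𝓘(ℝ, EE n))
    (fun y => (⟨y, Y y⟩ : TotalSpace (EE n) (fun x : M => TangentSpace (𝓡 n) x))) x

/-- A vector field is smooth. -/
def SmoothVF (Y : VF n M) : Prop :=
  ContMDiff (𝓡 n) ((𝓡 n).prod 𝓘(ℝ, EE n)) ∞
    (fun y => (⟨y, Y y⟩ : TotalSpace (EE n) (fun x : M => TangentSpace (𝓡 n) x)))

/-- `cov` is the Levi-Civita connection of `g`: torsion-free and compatible with `g`
(`cov Y x v` is `∇_v Y` at the point `x`). -/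
structure IsLeviCivita (g : RMetric n M) (cov : Conn n M) : Prop where
  torsion_free : ∀ (Y Z : VF n M) (x : M), DiffAt Y x → DiffAt Z x →
    cov Z x (Y x) - cov Y x (Z x) = VectorField.mlieBracket (𝓡 n) Y Z x
  metric : ∀ (Y Z : VF n M) (x : M), DiffAt Y x → DiffAt Z x → ∀ v : TangentSpace (𝓡 n) x,
    mfderiv (𝓡 n) 𝓘(ℝ, ℝ) (fun y => g.inner y (Y y) (Z y)) x v =
      g.inner x (cov Y x v) (Z x) + g.inner x (Y x) (cov Z x v)

/-- A 3-Sasakian structure on a Riemannian manifold `(M, g)` with Levi-Civita connection `cov`: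
three orthonormal smooth Killing fields `ξ_0, ξ_1, ξ_2` with `[ξ_a, ξ_{a+1}] = 2 ξ_{a+2}`
(indices mod 3), each of which is the Reeb field of a Sasakian structure, i.e. the tensor
`Φ_a X = - ∇_X ξ_a` satisfies `(∇_v Φ_a) Y = g(v, Y) ξ_a - g(ξ_a, Y) v`. -/
structure ThreeSasakian (g : RMetric n M) (cov : Conn n M) where
  xi : Fin 3 → VF n M
  smooth : ∀ a, SmoothVF (xi a)
  orth : ∀ a b x, g.inner x (xi a x) (xi b x) = if a = b then (1 : ℝ) else 0
  killing : ∀ a x (v w : TangentSpace (𝓡 n) x),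
    g.inner x (cov (xi a) x v) w + g.inner x v (cov (xi a) x w) = 0
  sasaki : ∀ a (Y : VF n M), SmoothVF Y → ∀ x (v : TangentSpace (𝓡 n) x),
    cov (fun y => - cov (xi a) y (Y y)) x v - (- cov (xi a) x (cov Y x v)) =
      (g.inner x v (Y x)) • xi a x - (g.inner x (xi a x) (Y x)) • v
  bracket : ∀ a x, VectorField.mlieBracket (𝓡 n) (xi a) (xi (a + 1)) x = (2 : ℝ) • xi (a + 2) x

/-- The velocity of a curve in `M`. -/
noncomputable def vel (γ : ℝ → M) (t : ℝ) : TangentSpace (𝓡 n) (γ t) :=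
  mfderiv 𝓘(ℝ, ℝ) (𝓡 n) γ t (1 : ℝ)

/-- A curve `[0,1] → M` is Lipschitz: in the chart at each of its points it is Lipschitz
near the corresponding time. -/
def LipCurve (n : ℕ) {M : Type} [TopologicalSpace M] [ChartedSpace (EE n) M]
    (γ : ℝ → M) : Prop :=
  ContinuousOn γ (Icc 0 1) ∧ ∀ t ∈ Icc (0 : ℝ) 1, ∃ K : NNReal, ∃ u ∈ 𝓝[Icc 0 1] t,
    LipschitzOnWith K (fun s => extChartAt (𝓡 n) (γ t) (γ s)) u

variable {g : RMetric n M} {cov : Conn n M}

/-- A horizontal Lipschitz curve from `x` to `y`: the velocity exists and is orthogonal to the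
three Reeb fields at almost every time. -/
structure HorizontalCurve (S : ThreeSasakian g cov) (x y : M) (γ : ℝ → M) : Prop where
  start : γ 0 = x
  finish : γ 1 = y
  lip : LipCurve n γ
  horizontal : ∀ᵐ t ∂(volume.restrict (Icc (0 : ℝ) 1)),
    MDifferentiableAt 𝓘(ℝ, ℝ) (𝓡 n) γ t ∧ ∀ a, g.inner (γ t) (S.xi a (γ t)) (vel γ t) = 0

/-- The length of a curve `[0,1] → M`. -/
noncomputable def len (g : RMetric n M) (γ : ℝ → M) : ENNReal :=
  ∫⁻ t in Icc (0 : ℝ) 1, ENNReal.ofReal (Real.sqrt (g.inner (γ t) (vel γ t) (vel γ t)))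

/-- The sub-Riemannian distance. -/
noncomputable def srDist (S : ThreeSasakian g cov) (x y : M) : ENNReal :=
  ⨅ (γ : ℝ → M) (_ : HorizontalCurve S x y γ), len g γ

/-- The sub-Riemannian diameter. -/
noncomputable def srDiam (S : ThreeSasakian g cov) : ENNReal := ⨆ (x : M) (y : M), srDist S x y

/-- The main theorem: every compact connected 3-Sasakian manifold of dimension `> 3`, in
particular of dimension 7, has sub-Riemannian diameter at most `π`. -/
def SRMain : Prop :=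
  ∀ (n : ℕ), 3 < n → ∀ (M : Type) [TopologicalSpace M] [T2Space M] [CompactSpace M]
    [ConnectedSpace M] [ChartedSpace (EE n) M] [IsManifold (𝓡 n) ∞ M]
    (g : RMetric n M) (cov : Conn n M), IsLeviCivita g cov → ∀ S : ThreeSasakian g cov,
    srDiam S ≤ ENNReal.ofReal Real.pi

end

end Pool.Agent.Helper75.SR
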