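import Mathlib

/-!
# The Christoffel symbols of a metric in a chart (Koszul formula)
-/

namespace Pool.Agent.Helper75.SR

open scoped ContDiff Topology

variable {E : Type} [NormedAddCommGroup E] [NormedSpace ℝ E]

/-! Shortcut instances (instance search for triply nested spaces fails without them). -/

noncomputable instance instNACG1 : NormedAddCommGroup (E →L[ℝ] ℝ) := inferInstance
noncomputable instance instNS1 : NormedSpace ℝ (E →L[ℝ] ℝ) := inferInstance
noncomputable instance instNACG2 : NormedAddCommGroup (E →L[ℝ] E →L[ℝ] ℝ) := inferInstance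
noncomputable instance instNS2 : NormedSpace ℝ (E →L[ℝ] E →L[ℝ] ℝ) := inferInstance
noncomputable instance instNACG3 : NormedAddCommGroup (E →L[ℝ] E →L[ℝ] E →L[ℝ] ℝ) :=
  inferInstance
noncomputable instance instNS3 : NormedSpace ℝ (E →L[ℝ] E →L[ℝ] E →L[ℝ] ℝ) := inferInstance
noncomputable instance instNACG1' : NormedAddCommGroup (E →L[ℝ] E) := inferInstance
noncomputable instance instNS1' : NormedSpace ℝ (E →L[ℝ] E) := inferInstance
noncomputable instance instNACG2' : NormedAddCommGroup (E →L[ℝ] E →L[ℝ] E) := inferInstance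
noncomputable instance instNS2' : NormedSpace ℝ (E →L[ℝ] E →L[ℝ] E) := inferInstance
noncomputable instance instNACG3' : NormedAddCommGroup (E →L[ℝ] E →L[ℝ] E →L[ℝ] E) :=
  inferInstance
noncomputable instance instNS3' : NormedSpace ℝ (E →L[ℝ] E →L[ℝ] E →L[ℝ] E) := inferInstance

/-- `(a,b,c) ↦ B c a b` -/
noncomputable def cyc3 (B : E →L[ℝ] E →L[ℝ] E →L[ℝ] ℝ) : E →L[ℝ] E →L[ℝ] E →L[ℝ] ℝ :=
  (ContinuousLinearMap.flipₗᵢ ℝ E E ℝ).toContinuousLinearEquiv.toContinuousLinearMap.comp B.flip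

@[simp] theorem cyc3_apply (B : E →L[ℝ] E →L[ℝ] E →L[ℝ] ℝ) (a b c : E) :
    cyc3 B a b c = B c a b := by
  simp [cyc3]

/-- The Koszul form `K a b c = (B a b c + B b a c - B c a b)/2`. -/
noncomputable def kform (B : E →L[ℝ] E →L[ℝ] E →L[ℝ] ℝ) : E →L[ℝ] E →L[ℝ] E →L[ℝ] ℝ :=
  (1 / 2 : ℝ) • (B + B.flip - cyc3 B)

@[simp] theorem kform_apply (B : E →L[ℝ] E →L[ℝ] E →L[ℝ] ℝ) (a b c : E) :
    kform B a b c = (1 / 2) * (B a b c + B b a c - B c a b) := by
  simp [kform]

/-- Christoffel symbols of the metric `G`. -/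
noncomputable def kos (G : E → E →L[ℝ] E →L[ℝ] ℝ) (z : E) : E →L[ℝ] E →L[ℝ] E :=
  (ContinuousLinearMap.compL ℝ E (E →L[ℝ] ℝ) E (ContinuousLinearMap.inverse (G z))).comp
    (kform (fderiv ℝ G z))

theorem kos_apply (G : E → E →L[ℝ] E →L[ℝ] ℝ) (z a b : E) :
    kos G z a b = ContinuousLinearMap.inverse (G z) (kform (fderiv ℝ G z) a b) := by
  simp [kos]

/-- A smooth metric on an open set. -/
structure IsMet (U : Set E) (G : E → E →L[ℝ] E →L[ℝ] ℝ) : Prop where
  isOpen : IsOpen U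
  smooth : ContDiffOn ℝ ∞ G U
  symm : ∀ x ∈ U, ∀ v w, G x v w = G x w v
  pos : ∀ x ∈ U, ∀ v, v ≠ 0 → 0 < G x v v

variable [FiniteDimensional ℝ E] {U : Set E} {G : E → E →L[ℝ] E →L[ℝ] ℝ}

theorem IsMet.exists_equiv (h : IsMet U G) {z : E} (hz : z ∈ U) :
    ∃ e : E ≃L[ℝ] (E →L[ℝ] ℝ), (e : E →L[ℝ] (E →L[ℝ] ℝ)) = G z := by
  have hinj : Function.Injective (G z) := by
    rw [injective_iff_map_eq_zero]
    intro v hv
    by_contra hne
    have := h.pos z hz v hne
    rw [hv] at this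
    simp at this
  have hfin : Module.finrank ℝ E = Module.finrank ℝ (E →L[ℝ] ℝ) := by
    have e1 : (E →L[ℝ] ℝ) ≃ₗ[ℝ] (E →ₗ[ℝ] ℝ) := LinearMap.toContinuousLinearMap.symm
    rw [LinearEquiv.finrank_eq e1]
    exact (Subspace.dual_finrank_eq).symm
  have : FiniteDimensional ℝ (E →L[ℝ] ℝ) :=
    (LinearMap.toContinuousLinearMap (𝕜 := ℝ) (E := E) (F' := ℝ)).finiteDimensional
  let e0 : E ≃ₗ[ℝ] (E →L[ℝ] ℝ) :=
    LinearMap.linearEquivOfInjective (G z : E →ₗ[ℝ] (E →L[ℝ] ℝ)) hinj hfin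
  refine ⟨e0.toContinuousLinearEquiv, ?_⟩
  ext v w
  rfl

theorem IsMet.apply_inverse (h : IsMet U G) {z : E} (hz : z ∈ U) (f : E →L[ℝ] ℝ) :
    G z (ContinuousLinearMap.inverse (G z) f) = f := by
  obtain ⟨e, he⟩ := h.exists_equiv hz
  rw [← he, ContinuousLinearMap.inverse_equiv]
  simp

/-- The Koszul formula. -/
theorem IsMet.kos_spec (h : IsMet U G) {z : E} (hz : z ∈ U) (a b c : E) :
    G z (kos G z a b) c =
      (1 / 2) * (fderiv ℝ G z a b c + fderiv ℝ G z b a c - fderiv ℝ G z c a b) := by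
  rw [kos_apply, h.apply_inverse hz, kform_apply]

theorem IsMet.differentiableAt (h : IsMet U G) {z : E} (hz : z ∈ U) :
    DifferentiableAt ℝ G z :=
  (h.smooth.contDiffAt (h.isOpen.mem_nhds hz)).differentiableAt (by simp)

theorem IsMet.fderiv_symm (h : IsMet U G) {z : E} (hz : z ∈ U) (a v w : E) :
    fderiv ℝ G z a v w = fderiv ℝ G z a w v := by
  have hd := (h.differentiableAt hz).hasFDerivAt
  have h1 : HasFDerivAt (fun x => G x v w) ((fderiv ℝ G z).flip v |>.flip w) z := by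
    have := ((hd.clm_apply (hasFDerivAt_const v z)).clm_apply (hasFDerivAt_const w z))
    refine this.congr_fderiv ?_
    ext a
    simp
  have h2 : HasFDerivAt (fun x => G x w v) ((fderiv ℝ G z).flip w |>.flip v) z := by
    have := ((hd.clm_apply (hasFDerivAt_const w z)).clm_apply (hasFDerivAt_const v z))
    refine this.congr_fderiv ?_
    ext a
    simp
  have h3 : (fun x => G x v w) =ᶠ[𝓝 z] (fun x => G x w v) := by
    filter_upwards [h.isOpen.mem_nhds hz] with x hx using h.symm x hx v w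
  have := (h1.unique (h2.congr_of_eventuallyEq h3))
  have h4 := congrArg (fun f => f a) this
  simpa using h4

theorem IsMet.ext (h : IsMet U G) {z : E} (hz : z ∈ U) {u v : E}
    (huv : ∀ c, G z u c = G z v c) : u = v := by
  by_contra hne
  have h1 := h.pos z hz (u - v) (sub_ne_zero.mpr hne)
  have h2 := huv (u - v)
  have h3 : G z (u - v) (u - v) = G z u (u - v) - G z v (u - v) := by
    rw [map_sub (G z) u v]
    rfl
  rw [h3, h2, sub_self] at h1
  exact lt_irrefl _ h1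

theorem IsMet.kos_symm (h : IsMet U G) {z : E} (hz : z ∈ U) (a b : E) :
    kos G z a b = kos G z b a := by
  apply h.ext hz
  intro c
  rw [h.kos_spec hz, h.kos_spec hz, h.fderiv_symm hz c a b]
  ring

theorem IsMet.kos_compat (h : IsMet U G) {z : E} (hz : z ∈ U) (a v w : E) :
    fderiv ℝ G z a v w = G z (kos G z a v) w + G z v (kos G z a w) := by
  rw [h.symm z hz v, h.kos_spec hz, h.kos_spec hz, h.fderiv_symm hz a w v,
    h.fderiv_symm hz v a w, h.fderiv_symm hz w a v]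
  ring

theorem IsMet.kos_unique (h : IsMet U G) {z : E} (hz : z ∈ U) (Γ : E → E → E)
    (hs : ∀ a b, Γ a b = Γ b a)
    (hc : ∀ a v w, fderiv ℝ G z a v w = G z (Γ a v) w + G z v (Γ a w)) (a b : E) :
    Γ a b = kos G z a b := by
  apply h.ext hz
  intro c
  rw [h.kos_spec hz, hc a b c, hc b a c, hc c a b, hs b a, hs c a, hs c b,
    h.symm z hz b (Γ a c)]
  ring_nf

theorem IsMet.kos_smooth (h : IsMet U G) : ContDiffOn ℝ ∞ (kos G) U := by
  intro z hz
  have hG := h.smooth.contDiffAt (h.isOpen.mem_nhds hz)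
  have hinv : ContDiffAt ℝ ∞ (fun x => ContinuousLinearMap.inverse (G x)) z := by
    obtain ⟨e, he⟩ := h.exists_equiv hz
    have h1 : ContDiffAt ℝ ∞ ContinuousLinearMap.inverse (G z) := by
      rw [← he]
      exact contDiffAt_map_inverse e
    exact h1.comp z hG
  have hD : ContDiffAt ℝ ∞ (fderiv ℝ G) z := hG.fderiv_right (by simp)
  have hk : ContDiffAt ℝ ∞ (fun x => kform (fderiv ℝ G x)) z := by
    have hflip : ContDiffAt ℝ ∞ (fun x => (fderiv ℝ G x).flip) z :=
      (ContinuousLinearMap.flipₗᵢ ℝ E E (E →L[ℝ] ℝ)).contDiff.contDiffAt.comp z hD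
    have hc : ContDiffAt ℝ ∞ (fun x => cyc3 (fderiv ℝ G x)) z := by
      unfold cyc3
      exact contDiffAt_const.clm_comp hflip
    unfold kform
    exact ((hD.add hflip).sub hc).const_smul (1 / 2 : ℝ)
  refine ContDiffAt.contDiffWithinAt ?_
  unfold kos
  exact ((ContinuousLinearMap.compL ℝ E (E →L[ℝ] ℝ) E).contDiff.contDiffAt.comp z hinv).clm_comp hk

end Pool.Agent.Helper75.SR
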