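import Pool.Agent.Helper75.SR.Goals1
import Pool.Agent.Helper75.SR.Kos
import Pool.Agent.Helper54.SRD.Goals

/-!
# 3-Sasakian structures given in all charts of a manifold, and rotation of the Reeb fields
-/

namespace Pool.Agent.Helper75.SR

open scoped ContDiff Topology Manifold Matrix
open Set Pool.Agent.Helper54.SRD

variable {E : Type} [NormedAddCommGroup E] [NormedSpace ℝ E]

/-- Rotation matrices. -/
def IsRot (A : Matrix (Fin 3) (Fin 3) ℝ) : Prop := A * Aᵀ = 1 ∧ A.det = 1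

/-- Reeb fields rotated by a constant matrix. -/
noncomputable def rotXi (A : Matrix (Fin 3) (Fin 3) ℝ) (xi : Fin 3 → E → E) (a : Fin 3) (x : E) :
    E := ∑ b, A a b • xi b x

/-- The curvature bound at a point of a chart. -/
def CurvLE {U : Set E} (S : LocSas E U) (K : ℝ) (z : E) : Prop :=
  ∀ u v : E, |S.g z (S.R z u v v) u| ≤ K * S.g z u u * S.g z v v

variable (E) (M : Type) [TopologicalSpace M] [ChartedSpace E M]

/-- A 3-Sasakian structure on `M`, given in all preferred charts. -/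
structure ASas where
  loc : ∀ x : M, LocSas E (tgt E x)
  g_trans : ∀ x y : M, ∀ z ∈ ov x y, ∀ u v,
    (loc x).g z u v = (loc y).g (tr x y z) (fderiv ℝ (tr x y) z u) (fderiv ℝ (tr x y) z v)
  Gam_trans : ∀ x y : M, ∀ z ∈ ov x y, ∀ u v,
    fderiv ℝ (tr x y) z ((loc x).Gam z u v) =
      (loc y).Gam (tr x y z) (fderiv ℝ (tr x y) z u) (fderiv ℝ (tr x y) z v)
        + fderiv ℝ (fderiv ℝ (tr x y)) z u v
  xi_trans : ∀ x y : M, ∀ z ∈ ov x y, ∀ a,
    fderiv ℝ (tr x y) z ((loc x).xi a z) = (loc y).xi a (tr x y z)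

variable {E M}

/-- The connection of a 3-Sasakian structure. -/
def ASas.conn (S : ASas E M) : AConn E M where
  Γ x := (S.loc x).Gam
  smooth x := (S.loc x).Gam_smooth
  symm x := (S.loc x).Gam_symm
  trans := S.Gam_trans

/-- `β ≥ 0`: the metric `g + β ∑ η_a ⊗ η_a` is smooth, symmetric, positive definite. -/
theorem LocSas.Gb_smooth {U : Set E} (S : LocSas E U) (β : ℝ) :
    ContDiffOn ℝ ∞ (S.Gb β) U := by
  have h : ∀ a, ContDiffOn ℝ ∞ (fun x => S.g x (S.xi a x)) U := fun a =>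
    S.g_smooth.clm_apply (S.xi_smooth a)
  have h2 : ∀ a, ContDiffOn ℝ ∞
      (fun x => (S.g x (S.xi a x)).smulRight (S.g x (S.xi a x))) U := by
    intro a
    have := (ContinuousLinearMap.smulRightL ℝ E (E →L[ℝ] ℝ)).contDiff.comp_contDiffOn (h a)
    exact this.clm_apply (h a)
  have h3 : ContDiffOn ℝ ∞
      (fun x => ∑ a : Fin 3, (S.g x (S.xi a x)).smulRight (S.g x (S.xi a x))) U :=
    ContDiffOn.sum fun a _ => h2 a
  exact S.g_smooth.add (h3.const_smul β)

theorem LocSas.Gb_symm {U : Set E} (S : LocSas E U) (β : ℝ) {x : E} (hx : x ∈ U) (v w : E) :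
    S.Gb β x v w = S.Gb β x w v := by
  rw [S.Gb_apply, S.Gb_apply, S.g_symm x hx v w]
  congr 2
  exact Finset.sum_congr rfl fun a _ => mul_comm _ _

theorem LocSas.Gb_pos {U : Set E} (S : LocSas E U) {β : ℝ} (hβ : 0 ≤ β) {x : E} (hx : x ∈ U)
    (v : E) (hv : v ≠ 0) : 0 < S.Gb β x v v := by
  rw [S.Gb_apply]
  have h1 := S.g_pos x hx v hv
  have h2 : 0 ≤ ∑ a : Fin 3, S.g x (S.xi a x) v * S.g x (S.xi a x) v :=
    Finset.sum_nonneg fun a _ => mul_self_nonneg _
  have := mul_nonneg hβ h2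
  linarith

/-- The metric `g + β ∑ η_a ⊗ η_a` on `M`. -/
noncomputable def ASas.met (S : ASas E M) (β : ℝ) (hβ : 0 ≤ β) : AMetric E M where
  G x := (S.loc x).Gb β
  smooth x := (S.loc x).Gb_smooth β
  symm x _ hz := (S.loc x).Gb_symm β hz
  pos x _ hz u hu := (S.loc x).Gb_pos hβ hz u hu
  trans x y z hz u v := by
    rw [LocSas.Gb_apply, LocSas.Gb_apply, ← S.g_trans x y z hz]
    congr 2
    refine Finset.sum_congr rfl fun a _ => ?_
    rw [S.g_trans x y z hz, S.g_trans x y z hz, S.xi_trans x y z hz]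

end Pool.Agent.Helper75.SR
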