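import Pool.Agent.Helper75.SR.Cov3
import Pool.Agent.Helper75.SR.ASas
import Pool.Agent.Helper45.SR.KosTrans

/-!
# Covariant derivatives in charts, part 4: Levi-Civita, and the 3-Sasakian structure in charts
-/

open Set Filter MeasureTheory Bundle
open scoped Manifold ContDiff Topology

noncomputable section

namespace Pool.Agent.Helper75.SR

open Pool.Agent.Helper54.SRD

variable {n : ℕ} {M : Type} [TopologicalSpace M] [ChartedSpace (EE n) M]
  [IsManifold (𝓡 n) ∞ M]

theorem isMet_gch (g : RMetric n M) (x : M) : IsMet (tgt (EE n) x) (gch g x) where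
  isOpen := isOpen_tgt x
  smooth := gch_smooth g x
  symm := gch_symm g x
  pos := gch_pos g x

theorem gch_differentiableAt (g : RMetric n M) {x p : M} (hp : p ∈ src (EE n) x) :
    DifferentiableAt ℝ (gch g x) (ch x p) :=
  (isMet_gch g x).differentiableAt (ch_mem hp)

theorem gam0_eq_kos {g : RMetric n M} {cov : Conn n M} (h : IsLeviCivita g cov) {x p : M}
    (hp : p ∈ src (EE n) x) (a b : EE n) :
    gam0 cov x (ch x p) a b = kos (gch g x) (ch x p) a b := by
  have hg : ∀ a b : EE n, gam0 cov x (ch x p) a b = cof x p (cov (cf x b) p (uof x p a)) := by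
    intro a b
    unfold gam0
    rw [chi_ch hp]
  refine (isMet_gch g x).kos_unique (ch_mem hp) (fun a b => gam0 cov x (ch x p) a b) ?_ ?_ a b
  · intro a b
    show gam0 cov x (ch x p) a b = gam0 cov x (ch x p) b a
    have h1 := h.torsion_free (cf x a) (cf x b) p (cf_diffAt hp a) (cf_diffAt hp b)
    rw [lie_cf hp] at h1
    rw [hg, hg]
    have h2 := congrArg (cof x p) h1
    rw [cof_sub hp, cof_zero hp] at h2
    exact sub_eq_zero.mp h2
  · intro a v w
    show _ = gch g x (ch x p) (gam0 cov x (ch x p) a v) w +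
      gch g x (ch x p) v (gam0 cov x (ch x p) a w)
    have h1 := h.metric (cf x v) (cf x w) p (cf_diffAt hp v) (cf_diffAt hp w) (uof x p a)
    have hev : (fun y => g.inner y (cf x v y) (cf x w y)) =ᶠ[𝓝 p]
        fun y => (fun z => gch g x z v w) (ch x y) := by
      filter_upwards [(isOpen_src x).mem_nhds hp] with q hq
      exact (gch_ch g hq v w).symm
    rw [hev.mfderiv_eq] at h1
    have hd := (gch_differentiableAt g hp).hasFDerivAt
    have h2 : HasFDerivAt (fun z => gch g x z v w)
        (((fderiv ℝ (gch g x) (ch x p)).flip v).flip w) (ch x p) := by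
      have := ((hd.clm_apply (hasFDerivAt_const v _)).clm_apply (hasFDerivAt_const w _))
      refine this.congr_fderiv ?_
      ext a
      simp
    have h3 := mfderiv_chart (fun z => gch g x z v w) hp h2.differentiableAt (uof x p a)
    rw [cof_uof hp, h2.fderiv] at h3
    have h4 : fderiv ℝ (gch g x) (ch x p) a v w =
        g.inner p (cov (cf x v) p (uof x p a)) (cf x w p) +
          g.inner p (cf x v p) (cov (cf x w) p (uof x p a)) := by
      rw [← h1]
      exact h3.symm
    rw [h4, hg, hg, gch_ch g hp, gch_ch g hp, uof_cof hp, uof_cof hp]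
    rfl

/-- The local formula for the Levi-Civita connection. -/
theorem cov_chart {g : RMetric n M} {cov : Conn n M} (h : IsLeviCivita g cov) {x p : M}
    (hp : p ∈ src (EE n) x) {Y : VF n M} (hY : DiffAt Y p) (v : TangentSpace (𝓡 n) p) :
    cof x p (cov Y p v) = fderiv ℝ (vch Y x) (ch x p) (cof x p v) +
      kos (gch g x) (ch x p) (cof x p v) (vch Y x (ch x p)) := by
  rw [cov_chart1 cov hp hY, gam0_eq_kos h hp]

theorem SmoothVF.diffAt {Y : VF n M} (hY : SmoothVF Y) (p : M) : DiffAt Y p :=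
  ContMDiffAt.mdifferentiableAt (hY p) (by simp)

/-- `phiOf` in a chart is the endomorphism `- cov ξ`. -/
theorem phiOf_chart {g : RMetric n M} {cov : Conn n M} (h : IsLeviCivita g cov) {x p : M}
    (hp : p ∈ src (EE n) x) {ξ : VF n M} (hξ : DiffAt ξ p) (v : TangentSpace (𝓡 n) p) :
    phiOf (kos (gch g x)) (vch ξ x) (ch x p) (cof x p v) = - cof x p (cov ξ p v) := by
  rw [phiOf_apply, cov_chart h hp hξ]

theorem cf_contMDiffOn (x : M) (b : EE n) :
    ContMDiffOn (𝓡 n) ((𝓡 n).prod 𝓘(ℝ, EE n)) ∞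
      (fun y => (⟨y, cf x b y⟩ : TotalSpace (EE n) (fun x : M => TangentSpace (𝓡 n) x)))
      (src (EE n) x) := by
  rw [Bundle.Trivialization.contMDiffOn_section_iff
    (trivializationAt (EE n) (TangentSpace (𝓡 n) : M → Type) x) (isOpen_src x)
    (by rw [src_eq_baseSet])]
  refine (contMDiffOn_const (c := b)).congr ?_
  intro q hq
  exact cof_uof hq b

/-- A tangent vector extends to a smooth vector field. -/
theorem exists_smooth_ext [T2Space M] (p : M) (v : TangentSpace (𝓡 n) p) :
    ∃ Y : VF n M, SmoothVF Y ∧ Y p = v := by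
  obtain ⟨f⟩ : Nonempty (SmoothBumpFunction (𝓡 n) p) := inferInstance
  refine ⟨fun q => f q • cf p (cof p p v) q, ?_, ?_⟩
  · have h1 : ContMDiffOn (𝓡 n) 𝓘(ℝ, ℝ) ∞ (f : M → ℝ) (src (EE n) p) :=
      f.contMDiff.contMDiffOn
    have h2 : tsupport (f : M → ℝ) ⊆ src (EE n) p := by
      have := f.tsupport_subset_chartAt_source
      unfold src
      rwa [extChartAt_source]
    exact ContMDiffOn.smul_section_of_tsupport h1 (isOpen_src p) h2
      (cf_contMDiffOn p (cof p p v))
  · show f p • cf p (cof p p v) p = v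
    rw [f.eq_one, one_smul]
    exact uof_cof (mem_src p) v

theorem phiOf_differentiableAt {E : Type} [NormedAddCommGroup E] [NormedSpace ℝ E]
    {Gam : E → E →L[ℝ] E →L[ℝ] E} {xi : E → E} {z : E} (h1 : ContDiffAt ℝ 2 xi z)
    (h2 : DifferentiableAt ℝ Gam z) : DifferentiableAt ℝ (phiOf Gam xi) z := by
  have h3 : DifferentiableAt ℝ (fderiv ℝ xi) z :=
    (h1.fderiv_right (m := 1) (by norm_num)).differentiableAt (by simp)
  have h4 : DifferentiableAt ℝ (fun x => (Gam x).flip) z :=
    (ContinuousLinearMap.flipₗᵢ ℝ E E E).differentiableAt.comp z h2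
  have h5 : DifferentiableAt ℝ (fun x => (Gam x).flip (xi x)) z :=
    h4.clm_apply (h1.differentiableAt (by simp))
  exact (h3.add h5).neg

section Loc

variable [T2Space M] {g : RMetric n M} {cov : Conn n M}

/-- The 3-Sasakian structure in the chart at `x`. -/
def toLoc (h : IsLeviCivita g cov) (S : ThreeSasakian g cov) (x : M) :
    LocSas (EE n) (tgt (EE n) x) where
  g := gch g x
  Gam := kos (gch g x)
  xi a := vch (S.xi a) x
  isOpen := isOpen_tgt x
  g_smooth := gch_smooth g x
  Gam_smooth := (isMet_gch g x).kos_smooth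
  xi_smooth a := vch_smooth (S.smooth a) x
  g_symm := gch_symm g x
  g_pos := gch_pos g x
  Gam_symm z hz v w := (isMet_gch g x).kos_symm hz v w
  compat z hz a v w := (isMet_gch g x).kos_compat hz a v w
  orth z hz a b := by
    obtain ⟨p, hp, rfl⟩ : ∃ p, p ∈ src (EE n) x ∧ ch x p = z := ⟨chi x z, chi_mem hz, ch_chi hz⟩
    rw [vch_ch _ hp, vch_ch _ hp, gch_cof g hp]
    exact S.orth a b p
  killing z hz a v w := by
    obtain ⟨p, hp, rfl⟩ : ∃ p, p ∈ src (EE n) x ∧ ch x p = z := ⟨chi x z, chi_mem hz, ch_chi hz⟩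
    obtain ⟨v, rfl⟩ : ∃ v', cof x p v' = v := ⟨uof x p v, cof_uof hp v⟩
    obtain ⟨w, rfl⟩ : ∃ w', cof x p w' = w := ⟨uof x p w, cof_uof hp w⟩
    rw [phiOf_chart h hp ((S.smooth a).diffAt p), phiOf_chart h hp ((S.smooth a).diffAt p),
      ← cof_neg hp, ← cof_neg hp, gch_cof g hp, gch_cof g hp]
    have := S.killing a p v w
    simp only [map_neg, neg_apply]
    linarith
  sasaki z hz a v w := by
    obtain ⟨p, hp, rfl⟩ : ∃ p, p ∈ src (EE n) x ∧ ch x p = z := ⟨chi x z, chi_mem hz, ch_chi hz⟩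
    obtain ⟨v, rfl⟩ : ∃ v', cof x p v' = v := ⟨uof x p v, cof_uof hp v⟩
    obtain ⟨w, rfl⟩ : ∃ w', cof x p w' = w := ⟨uof x p w, cof_uof hp w⟩
    obtain ⟨Y, hY, rfl⟩ := exists_smooth_ext p w
    set F := phiOf (kos (gch g x)) (vch (S.xi a) x) with hF
    have hxi : ContDiffAt ℝ 2 (vch (S.xi a) x) (ch x p) :=
      ((vch_smooth (S.smooth a) x).contDiffAt ((isOpen_tgt (E := EE n) x).mem_nhds hz)).of_le
        (WithTop.coe_le_coe.mpr le_top)
    have hG : DifferentiableAt ℝ (kos (gch g x)) (ch x p) :=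
      ((isMet_gch g x).kos_smooth.contDiffAt
        ((isOpen_tgt (E := EE n) x).mem_nhds hz)).differentiableAt (by simp)
    have hFd : DifferentiableAt ℝ F (ch x p) := phiOf_differentiableAt hxi hG
    have hYd := (diffAt_iff hp).mp (hY.diffAt p)
    have hev : vch (fun y => - cov (S.xi a) y (Y y)) x =ᶠ[𝓝 (ch x p)]
        fun z => F z (vch Y x z) := by
      filter_upwards [(isOpen_tgt (E := EE n) x).mem_nhds hz] with z' hz'
      obtain ⟨q, hq, rfl⟩ : ∃ q, q ∈ src (EE n) x ∧ ch x q = z' :=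
        ⟨chi x z', chi_mem hz', ch_chi hz'⟩
      rw [vch_ch _ hq, vch_ch _ hq, hF, phiOf_chart h hq ((S.smooth a).diffAt q), cof_neg hq]
    have hD : HasFDerivAt (fun z => F z (vch Y x z))
        ((F (ch x p)).comp (fderiv ℝ (vch Y x) (ch x p)) +
          (fderiv ℝ F (ch x p)).flip (vch Y x (ch x p))) (ch x p) :=
      hFd.hasFDerivAt.clm_apply hYd.hasFDerivAt
    have hPhid : DiffAt (fun y => - cov (S.xi a) y (Y y)) p := by
      rw [diffAt_iff hp]
      exact hD.differentiableAt.congr_of_eventuallyEq hev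
    have h1 := congrArg (cof x p) (S.sasaki a Y hY p v)
    rw [cof_sub hp, cof_neg hp, cov_chart h hp hPhid, hev.fderiv_eq, hD.fderiv,
      hev.self_of_nhds, cof_sub hp, cof_smul hp, cof_smul hp] at h1
    have h2 := phiOf_chart h hp ((S.smooth a).diffAt p) (cov Y p v)
    rw [← hF, cov_chart h hp (hY.diffAt p)] at h2
    have h3 : cof x p (cov (S.xi a) p (cov Y p v)) =
        - F (ch x p) (fderiv ℝ (vch Y x) (ch x p) (cof x p v) +
          kos (gch g x) (ch x p) (cof x p v) (vch Y x (ch x p))) := by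
      rw [h2, neg_neg]
    rw [h3] at h1
    rw [gch_cof g hp, vch_ch _ hp, gch_cof g hp]
    rw [← vch_ch Y hp] at *
    rw [← h1]
    simp only [add_apply, ContinuousLinearMap.comp_apply,
      ContinuousLinearMap.flip_apply, map_add]
    abel
  lie z hz a := by
    obtain ⟨p, hp, rfl⟩ : ∃ p, p ∈ src (EE n) x ∧ ch x p = z := ⟨chi x z, chi_mem hz, ch_chi hz⟩
    have h1 := lie_chart hp ((S.smooth a).diffAt p) ((S.smooth (a + 1)).diffAt p)
    rw [S.bracket a p, cof_smul hp] at h1
    rw [← h1, vch_ch _ hp]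

/-- The 3-Sasakian structure in all charts. -/
def toASas (h : IsLeviCivita g cov) (S : ThreeSasakian g cov) : ASas (EE n) M where
  loc := toLoc h S
  g_trans := gch_trans g
  Gam_trans x y z hz u v := by
    have hs : ∀ u : EE n, ∃ v, fderiv ℝ (tr x y) z v = u := by
      intro u
      have h1 := fderiv_tr_fderiv_tr (tr_mem hz) u
      rw [tr_tr hz] at h1
      exact ⟨_, h1⟩
    refine Pool.Agent.Helper45.SR.gKosTrans (EE n) (tgt (EE n) x) (tgt (EE n) y) (gch g x)
      (gch g y) (tr x y) z (isMet_gch g x) (isMet_gch g y) hz.1 (tr_mem hz).1 (contDiffAt_tr hz)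
      hs ?_ u v
    filter_upwards [(isOpen_ov x y).mem_nhds hz] with w hw
    exact gch_trans g x y w hw
  xi_trans x y z hz a := (vch_trans (S.xi a) x y z hz).symm

end Loc

end Pool.Agent.Helper75.SR
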