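import Pool.Agent.Helper75.SR.ASas

/-!
# MP_d08e19_gt: goals, second part (atlas level)
-/

namespace Pool.Agent.Helper75.SR

open scoped ContDiff Topology Manifold Matrix
open Set Real Pool.Agent.Helper54.SRD

/-- The second variation integrand `qf` of the metric `g + β ∑ η_a²` is `QQ`. -/
def GTay2 : Prop :=
  ∀ (E : Type) [NormedAddCommGroup E] [NormedSpace ℝ E] (U : Set E) (S : LocSas E U)
    (β : ℝ) (x : E), x ∈ U → ∀ T V V' : E,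
    qf (S.Gb β) x T V V' (-(S.Gam x V V)) (-(fderiv ℝ S.Gam x T V V) - (2 : ℝ) • S.Gam x V' V)
      = S.QQ β x T V V'

/-- Transformation law of the Christoffel symbols. -/
def GKosTrans : Prop :=
  ∀ (E : Type) [NormedAddCommGroup E] [NormedSpace ℝ E] [FiniteDimensional ℝ E] (U₁ U₂ : Set E)
    (G₁ G₂ : E → E →L[ℝ] E →L[ℝ] ℝ) (f : E → E) (z : E), IsMet U₁ G₁ → IsMet U₂ G₂ → z ∈ U₁ →
    f z ∈ U₂ → ContDiffAt ℝ ∞ f z → (∀ u, ∃ v, fderiv ℝ f z v = u) →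
    (∀ᶠ y in 𝓝 z, ∀ u v, G₁ y u v = G₂ (f y) (fderiv ℝ f y u) (fderiv ℝ f y v)) →
    ∀ u v, fderiv ℝ f z (kos G₁ z u v) =
      kos G₂ (f z) (fderiv ℝ f z u) (fderiv ℝ f z v) + fderiv ℝ (fderiv ℝ f) z u v

/-- Rotation of a 3-Sasakian structure in a chart. -/
def GRot : Prop :=
  ∀ (E : Type) [NormedAddCommGroup E] [NormedSpace ℝ E] (U : Set E) (S : LocSas E U)
    (A : Matrix (Fin 3) (Fin 3) ℝ), IsRot A →
    ∃ S' : LocSas E U, S'.g = S.g ∧ S'.Gam = S.Gam ∧ (∀ a, S'.xi a = rotXi A S.xi a) ∧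
      ∀ β, S'.Gb β = S.Gb β

/-- Rotation of a 3-Sasakian structure on `M`. -/
def GRotA : Prop :=
  ∀ (E : Type) [NormedAddCommGroup E] [NormedSpace ℝ E] (M : Type) [TopologicalSpace M]
    [ChartedSpace E M] (S : ASas E M) (A : Matrix (Fin 3) (Fin 3) ℝ), IsRot A →
    ∃ S' : ASas E M, ∀ x, (S'.loc x).g = (S.loc x).g ∧ (S'.loc x).Gam = (S.loc x).Gam ∧
      (∀ a, (S'.loc x).xi a = rotXi A (S.loc x).xi a) ∧ ∀ β, (S'.loc x).Gb β = (S.loc x).Gb β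

/-- Every vector can be rotated to the first axis. -/
def GSO3 : Prop :=
  ∀ w : Fin 3 → ℝ, ∃ A : Matrix (Fin 3) (Fin 3) ℝ, IsRot A ∧
    ∀ a, ∑ b, A a b * w b = if a = 0 then √(∑ b, w b ^ 2) else 0

/-- The sum of the four second variations depends only on the trace of the curvature. -/
def GInd : Prop :=
  ∀ (β τ w k t : ℝ) (Rm Rm' : Fin 3 → Fin 3 → ℝ), (∀ a b, Rm a b = Rm b a) →
    (∀ a b, Rm' a b = Rm' b a) → ∑ a, Rm a a = ∑ a, Rm' a a →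
    ∑ i : Fin 4, qq β τ w Rm
        (fldP β k w i t) (deriv (fldP β k w i) t)
        (fun a => fldF β k w i a t) (fun a => deriv (fldF β k w i a) t)
        (fun a => fldG β k τ w i a t) (fun a => deriv (fldG β k τ w i a) t) =
    ∑ i : Fin 4, qq β τ w Rm'
        (fldP β k w i t) (deriv (fldP β k w i) t)
        (fun a => fldF β k w i a t) (fun a => deriv (fldF β k w i a) t)
        (fun a => fldG β k τ w i a t) (fun a => deriv (fldG β k τ w i a) t)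

/-- The coefficients are smooth and vanish at `0` and `2π/k`. -/
def GFldEnds : Prop :=
  ∀ (β τ w L : ℝ), 0 < L → ∀ i : Fin 4,
    ContDiff ℝ ∞ (fldP β (2 * π / L) w i) ∧
    (∀ a, ContDiff ℝ ∞ (fldF β (2 * π / L) w i a)) ∧
    (∀ a, ContDiff ℝ ∞ (fldG β (2 * π / L) τ w i a)) ∧
    (fldP β (2 * π / L) w i 0 = 0 ∧ fldP β (2 * π / L) w i L = 0) ∧
    (∀ a, fldF β (2 * π / L) w i a 0 = 0 ∧ fldF β (2 * π / L) w i a L = 0) ∧
    (∀ a, fldG β (2 * π / L) τ w i a 0 = 0 ∧ fldG β (2 * π / L) τ w i a L = 0)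

section Man

/-- The expression of a curve in the chart at `x`. -/
noncomputable def bx (E : Type) [NormedAddCommGroup E] [NormedSpace ℝ E] {M : Type}
    [TopologicalSpace M] [ChartedSpace E M] (γ : ℝ → M) (x : M) : ℝ → E := fun t => ch x (γ t)

variable {E : Type} [NormedAddCommGroup E] [NormedSpace ℝ E]
variable {M : Type} [TopologicalSpace M] [ChartedSpace E M]

/-- The curve `γ` is, on `[a,b]`, a geodesic of `g + β ∑ η_a²` whose velocity `T` satisfies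
`η_i(T) = W i`; the equation `D_T T = 2 β ∑ W_i φ_i T` holds in all charts. -/
def GeoW (S : ASas E M) (β : ℝ) (γ : ℝ → M) (a b : ℝ) (W : Fin 3 → ℝ) : Prop :=
  ∀ t ∈ Icc a b, ContinuousAt γ t ∧ ∀ x : M, γ t ∈ src E x →
    ContDiffAt ℝ 2 (bx E γ x) t ∧
    (S.loc x).Gb β (bx E γ x t) (deriv (bx E γ x) t) (deriv (bx E γ x) t) = 1 ∧
    (∀ i, (S.loc x).g (bx E γ x t) ((S.loc x).xi i (bx E γ x t)) (deriv (bx E γ x) t) = W i) ∧
    deriv (deriv (bx E γ x)) t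
        + (S.loc x).Gam (bx E γ x t) (deriv (bx E γ x) t) (deriv (bx E γ x) t) =
      (2 * β) • ∑ i, W i • (S.loc x).phi i (bx E γ x t) (deriv (bx E γ x) t)

/-- The unit horizontal field `e = (T - w ξ_0)/τ` along a geodesic, in charts. -/
noncomputable def eF (S : ASas E M) (γ : ℝ → M) (τ w : ℝ) (x : M) (t : ℝ) : E :=
  τ⁻¹ • (deriv (bx E γ x) t - w • (S.loc x).xi 0 (bx E γ x t))

/-- The field `p e + ∑ f_a φ_a e + ∑ g_a ξ_a` for a field `e` along `γ` given in charts. -/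
noncomputable def fV (S : ASas E M) (γ : ℝ → M) (e : M → ℝ → E) (p : ℝ → ℝ)
    (f g : Fin 3 → ℝ → ℝ) (x : M) (t : ℝ) : E :=
  p t • e x t + ∑ i, f i t • (S.loc x).phi i (bx E γ x t) (e x t)
    + ∑ i, g i t • (S.loc x).xi i (bx E γ x t)

/-- `e` is a unit horizontal field along `γ` at time `t`, given in all charts, with
`T = τ e + w ξ_0` and `D_T e = κ φ_0 e`, `κ = 2 (1+β) w - w`. -/
def IsFrame (S : ASas E M) (β : ℝ) (γ : ℝ → M) (τ w : ℝ) (e : M → ℝ → E) (t : ℝ) : Prop :=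
  ContinuousAt γ t ∧ ∀ x : M, γ t ∈ src E x →
    ContDiffAt ℝ 2 (bx E γ x) t ∧ ContDiffAt ℝ 1 (e x) t ∧
    (∀ i, (S.loc x).g (bx E γ x t) ((S.loc x).xi i (bx E γ x t)) (e x t) = 0) ∧
    (S.loc x).g (bx E γ x t) (e x t) (e x t) = 1 ∧
    deriv (bx E γ x) t = τ • e x t + w • (S.loc x).xi 0 (bx E γ x t) ∧
    (S.loc x).D (bx E γ x t) (deriv (bx E γ x) t) (e x t) (deriv (e x) t) =
      (2 * (1 + β) * w - w) • (S.loc x).phi 0 (bx E γ x t) (e x t) ∧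
    ∀ y : M, γ t ∈ src E y → e y t = fderiv ℝ (tr x y) (bx E γ x t) (e x t)

end Man

/-- Geodesics of `g + β ∑ η_a²`. -/
def GGeo : Prop :=
  ∀ (E : Type) [NormedAddCommGroup E] [NormedSpace ℝ E] [FiniteDimensional ℝ E]
    (M : Type) [TopologicalSpace M] [ChartedSpace E M] [IsManifold 𝓘(ℝ, E) ∞ M]
    (S : ASas E M) (β : ℝ) (hβ : 0 ≤ β) (γ : ℝ → M) (a b : ℝ), a ≤ b →
    (∀ t ∈ Icc a b, IsGeo (S.met β hβ) γ t) → ∃ W : Fin 3 → ℝ, GeoW S β γ a b W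

/-- `GeoW` under rotation. -/
def GGeoRot : Prop :=
  ∀ (E : Type) [NormedAddCommGroup E] [NormedSpace ℝ E] [FiniteDimensional ℝ E]
    (M : Type) [TopologicalSpace M] [ChartedSpace E M] [IsManifold 𝓘(ℝ, E) ∞ M]
    (S S' : ASas E M) (A : Matrix (Fin 3) (Fin 3) ℝ) (β : ℝ) (γ : ℝ → M) (a b : ℝ)
    (W : Fin 3 → ℝ), IsRot A →
    (∀ x, (S'.loc x).g = (S.loc x).g ∧ (S'.loc x).Gam = (S.loc x).Gam ∧
      (∀ a, (S'.loc x).xi a = rotXi A (S.loc x).xi a) ∧ ∀ β, (S'.loc x).Gb β = (S.loc x).Gb β) →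
    GeoW S β γ a b W → GeoW S' β γ a b (fun i => ∑ j, A i j * W j)

/-- The frame field of a geodesic with `W = (w,0,0)` and `τ > 0`. -/
def GEF : Prop :=
  ∀ (E : Type) [NormedAddCommGroup E] [NormedSpace ℝ E] [FiniteDimensional ℝ E]
    (M : Type) [TopologicalSpace M] [ChartedSpace E M] [IsManifold 𝓘(ℝ, E) ∞ M]
    (S : ASas E M) (β : ℝ) (γ : ℝ → M) (a b τ w : ℝ), 0 ≤ β → 0 < τ →
    τ ^ 2 = 1 - (1 + β) * w ^ 2 → GeoW S β γ a b ![w, 0, 0] →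
    ∀ t ∈ Icc a b, IsFrame S β γ τ w (eF S γ τ w) t

/-- Properties of the field `p e + ∑ f_a φ_a e + ∑ g_a ξ_a` for the index inequality. -/
def GFV : Prop :=
  ∀ (E : Type) [NormedAddCommGroup E] [NormedSpace ℝ E] [FiniteDimensional ℝ E]
    (M : Type) [TopologicalSpace M] [ChartedSpace E M] [IsManifold 𝓘(ℝ, E) ∞ M]
    (S : ASas E M) (β : ℝ) (hβ : 0 ≤ β) (γ : ℝ → M) (τ w t : ℝ) (e : M → ℝ → E)
    (p : ℝ → ℝ) (f g : Fin 3 → ℝ → ℝ),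
    IsFrame S β γ τ w e t → ContDiff ℝ ∞ p → (∀ i, ContDiff ℝ ∞ (f i)) →
    (∀ i, ContDiff ℝ ∞ (g i)) →
    (∀ x : M, γ t ∈ src E x → ContDiffAt ℝ 1 (fV S γ e p f g x) t) ∧
    (∀ x y : M, γ t ∈ src E x → γ t ∈ src E y →
      fV S γ e p f g y t = fderiv ℝ (tr x y) (ch x (γ t)) (fV S γ e p f g x t)) ∧
    (∀ x : M, γ t ∈ src E x →
      ∃ Rm : Fin 3 → Fin 3 → ℝ, (∀ i j, Rm i j = Rm j i) ∧ ∑ i, Rm i i = 3 ∧
        (∀ K, CurvLE (S.loc x) K (bx E γ x t) → |Rm 0 0| ≤ K) ∧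
        qv ((S.met β hβ).G x) (S.conn.Γ x) (fun t => (ch x (γ t) : E)) (fV S γ e p f g x) t =
          qq β τ w Rm (p t) (deriv p t) (fun i => f i t) (fun i => deriv (f i) t)
            (fun i => g i t) (fun i => deriv (g i) t))

/-- Uniform curvature bound on a compact manifold. -/
def GKB : Prop :=
  ∀ (E : Type) [NormedAddCommGroup E] [NormedSpace ℝ E] [FiniteDimensional ℝ E]
    (M : Type) [TopologicalSpace M] [ChartedSpace E M] [IsManifold 𝓘(ℝ, E) ∞ M]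
    [CompactSpace M] (S : ASas E M),
    ∃ K : ℝ, 0 ≤ K ∧ ∀ p : M, ∃ x : M, p ∈ src E x ∧
      ∀ᶠ q in 𝓝 p, q ∈ src E x ∧ CurvLE (S.loc x) K (ch x q)

/-- The main inequality: a minimising geodesic with `W = (w,0,0)`, `τ > 0` on `[a,b]` has
`4 τ² ≤ (2π/(b-a))²`, and `4 ((1+β) w)² ≤ (2π/(b-a))² + K τ²`. -/
def GMain : Prop :=
  ∀ (E : Type) [NormedAddCommGroup E] [NormedSpace ℝ E] [FiniteDimensional ℝ E]
    (M : Type) [TopologicalSpace M] [ChartedSpace E M] [IsManifold 𝓘(ℝ, E) ∞ M]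
    [CompactSpace M] [T2Space M] [ConnectedSpace M]
    (S : ASas E M) (K : ℝ), 0 ≤ K →
    (∀ p : M, ∃ x : M, p ∈ src E x ∧
      ∀ᶠ q in 𝓝 p, q ∈ src E x ∧ CurvLE (S.loc x) K (ch x q)) →
    ∀ (β : ℝ) (hβ : 0 ≤ β) (γ : ℝ → M) (a b τ w : ℝ), a < b → 0 < τ →
    τ ^ 2 = 1 - (1 + β) * w ^ 2 → GeoW S β γ a b ![w, 0, 0] →
    (∀ t ∈ Icc a b, IsGeo (S.met β hβ) γ t) → b - a ≤ tau (S.met β hβ) (γ a) (γ b) →
    4 * τ ^ 2 ≤ (2 * π / (b - a)) ^ 2 ∧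
    4 * ((1 + β) * w) ^ 2 ≤ (2 * π / (b - a)) ^ 2 + K * τ ^ 2

/-- Global solutions of linear differential equations. -/
def GLODE : Prop :=
  ∀ (E : Type) [NormedAddCommGroup E] [NormedSpace ℝ E] [CompleteSpace E]
    (A : ℝ → E →L[ℝ] E) (a b : ℝ), a < b → ContinuousOn A (Icc a b) → ∀ x₀ : E,
    ∃ x : ℝ → E, x a = x₀ ∧ ∀ t ∈ Icc a b, HasDerivWithinAt x (A t (x t)) (Icc a b) t

/-- A frame field along a Reeb orbit, in a chart. -/
def GReebLoc : Prop :=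
  ∀ (E : Type) [NormedAddCommGroup E] [NormedSpace ℝ E] [FiniteDimensional ℝ E] (U : Set E)
    (S : LocSas E U) (κ w a b : ℝ) (c : ℝ → E), 3 < Module.finrank ℝ E → a < b →
    (∀ t ∈ Icc a b, c t ∈ U ∧ HasDerivAt c (w • S.xi 0 (c t)) t) →
    ∃ e : ℝ → E, ∀ t ∈ Ioo a b, ContDiffAt ℝ 1 e t ∧
      (∀ i, S.g (c t) (S.xi i (c t)) (e t) = 0) ∧ S.g (c t) (e t) (e t) = 1 ∧
      S.D (c t) (w • S.xi 0 (c t)) (e t) (deriv e t) = κ • S.phi 0 (c t) (e t)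

/-- A frame field given in one chart is a frame field in all charts. -/
def GTransFrame : Prop :=
  ∀ (E : Type) [NormedAddCommGroup E] [NormedSpace ℝ E] [FiniteDimensional ℝ E]
    (M : Type) [TopologicalSpace M] [ChartedSpace E M] [IsManifold 𝓘(ℝ, E) ∞ M]
    (S : ASas E M) (β : ℝ) (γ : ℝ → M) (τ w t : ℝ) (x₀ : M) (e₀ : ℝ → E),
    ContinuousAt γ t → γ t ∈ src E x₀ → ContDiffAt ℝ 2 (bx E γ x₀) t → ContDiffAt ℝ 1 e₀ t →
    (∀ i, (S.loc x₀).g (bx E γ x₀ t) ((S.loc x₀).xi i (bx E γ x₀ t)) (e₀ t) = 0) →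
    (S.loc x₀).g (bx E γ x₀ t) (e₀ t) (e₀ t) = 1 →
    deriv (bx E γ x₀) t = τ • e₀ t + w • (S.loc x₀).xi 0 (bx E γ x₀ t) →
    (S.loc x₀).D (bx E γ x₀ t) (deriv (bx E γ x₀) t) (e₀ t) (deriv e₀ t) =
      (2 * (1 + β) * w - w) • (S.loc x₀).phi 0 (bx E γ x₀ t) (e₀ t) →
    IsFrame S β γ τ w (fun x s => fderiv ℝ (tr x₀ x) (bx E γ x₀ s) (e₀ s)) t

/-- A frame field along a Reeb orbit inside one chart. -/
def GReebFrame : Prop :=
  ∀ (E : Type) [NormedAddCommGroup E] [NormedSpace ℝ E] [FiniteDimensional ℝ E]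
    (M : Type) [TopologicalSpace M] [ChartedSpace E M] [IsManifold 𝓘(ℝ, E) ∞ M]
    (S : ASas E M) (β : ℝ) (γ : ℝ → M) (a b c d w : ℝ) (x₀ : M), 3 < Module.finrank ℝ E →
    0 ≤ β → (1 + β) * w ^ 2 = 1 → GeoW S β γ a b ![w, 0, 0] → a < c → c < d → d < b →
    (∀ t ∈ Icc a b, γ t ∈ src E x₀) →
    ∃ e : M → ℝ → E, ∀ t ∈ Icc c d, IsFrame S β γ 0 w e t

/-- A vertical minimising geodesic is short: for `β` large there is none of length `≥ ℓ`. -/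
def GReeb : Prop :=
  ∀ (E : Type) [NormedAddCommGroup E] [NormedSpace ℝ E] [FiniteDimensional ℝ E]
    (M : Type) [TopologicalSpace M] [ChartedSpace E M] [IsManifold 𝓘(ℝ, E) ∞ M]
    [CompactSpace M] [T2Space M] [ConnectedSpace M]
    (S : ASas E M) (ℓ : ℝ), 3 < Module.finrank ℝ E → 0 < ℓ →
    ∃ β₀ : ℝ, ∀ (β : ℝ) (hβ : 0 ≤ β) (γ : ℝ → M) (a b : ℝ) (W : Fin 3 → ℝ), β₀ ≤ β →
      ℓ ≤ b - a → (∀ t, SpeedLE (S.met β hβ) 1 γ t) → GeoW S β γ a b W →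
      (∀ t ∈ Icc a b, IsGeo (S.met β hβ) γ t) →
      (∀ s t, a ≤ s → s ≤ t → t ≤ b → tau (S.met β hβ) (γ s) (γ t) = t - s) →
      (1 + β) * ∑ i, W i ^ 2 ≠ 1

/-- The diameter bound for the metrics `g + β ∑ η_a²`. -/
def GDiam : Prop :=
  ∀ (E : Type) [NormedAddCommGroup E] [NormedSpace ℝ E] [FiniteDimensional ℝ E]
    (M : Type) [TopologicalSpace M] [ChartedSpace E M] [IsManifold 𝓘(ℝ, E) ∞ M]
    [CompactSpace M] [T2Space M] [ConnectedSpace M]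
    (S : ASas E M), 3 < Module.finrank ℝ E →
    ∃ K₀ : ℝ, 0 ≤ K₀ ∧ ∀ (β : ℝ) (hβ : 0 ≤ β), K₀ ≤ β → ∀ x y : M,
      (tau (S.met β hβ) x y) ^ 2 * (1 - K₀ / (1 + β)) ≤ π ^ 2

end Pool.Agent.Helper75.SR
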