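import Pool.Agent.Helper54.SRD.Asm
import Pool.Agent.Helper54.SRD.Final2
import Pool.Agent.Helper75.SR.Cov4
import Pool.Agent.Helper41.SR.Main
import Pool.Agent.Helper87.SR.FV
import Pool.Agent.Helper87.SR.Rot
import Pool.Agent.Helper53.SR.EF
import Pool.Agent.Helper27.SR.GInd
import Pool.Agent.Helper65.SR.Reeb
import Pool.Agent.Helper88.SRD.Reeb
import Pool.Agent.Helper40.SR.Glode
import Pool.Agent.Helper98.SR.TransFrame
import Pool.Agent.Helper31.SR.Tay2
import Pool.Agent.Helper62.SR.Diam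
import Pool.Agent.Helper62.SR.KB
import Pool.Agent.Helper97.SRD.DBR

/-!
# Assembly of the diameter bound
-/

open scoped Manifold ContDiff Topology

namespace Pool.Agent.Helper75.SR

open Pool.Agent.Helper54.SRD

theorem bGEO (E : Type) [NormedAddCommGroup E] [NormedSpace ℝ E] [FiniteDimensional ℝ E]
    (M : Type) [TopologicalSpace M] [ChartedSpace E M] [IsManifold 𝓘(ℝ, E) ∞ M] : S_GEO E M := by
  exact Pool.Agent.Helper10.SRD.geo E M (aDER E M) (aPTW E M) (aDB2 E)
    (Pool.Agent.Helper97.SRD.dbr E (aDB1 E))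

/-- The diameter bound for the metrics `g + β ∑ η_a²`, given the index inequality and the
geodesic equation. -/
theorem gDiam_of
    (hI : ∀ (E : Type) [NormedAddCommGroup E] [NormedSpace ℝ E] [FiniteDimensional ℝ E]
      (M : Type) [TopologicalSpace M] [ChartedSpace E M] [IsManifold 𝓘(ℝ, E) ∞ M], S_INDEX E M)
    (hGeo : GGeo) (hGeoRot : GGeoRot) : GDiam := by
  have hA : GAlg := Pool.Agent.Helper25.SR.gAlg
  have hT : GTay2 := Pool.Agent.Helper31.SR.gTay2
  have hFV2 : GFV2 := Pool.Agent.Helper87.SR.gFV2 hT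
  have hEF : GEF := Pool.Agent.Helper53.SR.gEF hA
  have hMain : GMain := Pool.Agent.Helper41.SR.gMain hI hFV2 hEF Pool.Agent.Helper27.SR.gInd
    Pool.Agent.Helper27.SR.gFldEnds
  have hRL : GReebLoc := Pool.Agent.Helper88.Reeb.reebLoc Pool.Agent.Helper40.SR.glode
  have hTF : GTransFrame := Helper98.SR.gTransFrame
  have hRF : GReebFrame := Pool.Agent.Helper65.SR.greebFrame hRL hTF
  have hReeb : GReeb := Pool.Agent.Helper65.SR.greeb (fun E _ _ _ M _ _ _ => aEXIT E M) hI hRF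
    hFV2.gfv Pool.Agent.Helper87.SR.gRotA Pool.Agent.Helper87.SR.gSO3 hGeoRot
  exact Pool.Agent.Helper62.SR.gDiam (fun E _ _ _ M _ _ _ => aMIN E M)
    (fun E _ _ _ M _ _ _ => bGEO E M) hGeo hGeoRot Pool.Agent.Helper87.SR.gRotA
    Pool.Agent.Helper87.SR.gSO3 Pool.Agent.Helper62.SR.gKB hMain hReeb

end Pool.Agent.Helper75.SR
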