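import Pool.Agent.Helper54.SRD.Bridge
import Pool.Agent.Helper75.SR.Kos

/-!
# Covariant derivatives and Lie brackets in charts, part 1
-/

open Set Filter MeasureTheory Bundle
open scoped Manifold ContDiff Topology

noncomputable section

namespace Pool.Agent.Helper75.SR

open Pool.Agent.Helper54.SRD

variable {n : ℕ} {M : Type} [TopologicalSpace M] [ChartedSpace (EE n) M]
  [IsManifold (𝓡 n) ∞ M]

theorem mem_baseSet {x p : M} (hp : p ∈ src (EE n) x) :
    p ∈ (trivializationAt (EE n) (TangentSpace (𝓡 n) : M → Type) x).baseSet := by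
  rw [← src_eq_baseSet]; exact hp

/-- Coordinates as a continuous linear map. -/
def cofL (x p : M) : TangentSpace (𝓡 n) p →L[ℝ] EE n :=
  (trivializationAt (EE n) (TangentSpace (𝓡 n) : M → Type) x).continuousLinearMapAt ℝ p

/-- Inverse coordinates as a continuous linear map. -/
def uofL (x p : M) : EE n →L[ℝ] TangentSpace (𝓡 n) p :=
  (trivializationAt (EE n) (TangentSpace (𝓡 n) : M → Type) x).symmL ℝ p

theorem cofL_apply {x p : M} (hp : p ∈ src (EE n) x) (v : TangentSpace (𝓡 n) p) :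
    cofL x p v = cof x p v := by
  unfold cofL cof
  rw [Trivialization.continuousLinearMapAt_apply, Trivialization.linearMapAt_apply,
    if_pos (mem_baseSet hp)]

theorem uofL_apply {x p : M} (hp : p ∈ src (EE n) x) (u : EE n) : uofL x p u = uof x p u := by
  unfold uofL uof
  rw [Trivialization.symmL_apply]
  exact mem_baseSet hp

theorem cofL_eq_mfderiv {x p : M} (hp : p ∈ src (EE n) x) :
    (cofL x p : TangentSpace (𝓡 n) p →L[ℝ] EE n) =
      mfderiv (𝓡 n) 𝓘(ℝ, EE n) (extChartAt (𝓡 n) x) p := by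
  unfold cofL
  rw [TangentBundle.continuousLinearMapAt_trivializationAt]
  have := hp
  unfold src at this
  rwa [extChartAt_source] at this

/-- Differentiability of a vector field in charts. -/
theorem diffAt_iff {Y : VF n M} {x p : M} (hp : p ∈ src (EE n) x) :
    DiffAt Y p ↔ DifferentiableAt ℝ (vch Y x) (ch x p) := by
  have hiff := (trivializationAt (EE n) (TangentSpace (𝓡 n) : M → Type)
    x).mdifferentiableAt_section_iff (𝓡 n) Y (mem_baseSet hp)
  unfold DiffAt
  constructor
  · intro h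
    have h1 := hiff.mp h
    have h2 : MDifferentiableAt 𝓘(ℝ, EE n) (𝓡 n) (chi x : EE n → M) (ch x p) := by
      have h3 : ContMDiffOn 𝓘(ℝ, EE n) (𝓡 n) ∞ (chi x : EE n → M) (tgt (EE n) x) :=
        contMDiffOn_extChartAt_symm x
      exact ((h3 (ch x p) (ch_mem hp)).contMDiffAt
        ((isOpen_tgt (E := EE n) x).mem_nhds (ch_mem hp))).mdifferentiableAt (by simp)
    have h4 : MDifferentiableAt 𝓘(ℝ, EE n) 𝓘(ℝ, EE n) (vch Y x) (ch x p) := by
      have h1' : MDifferentiableAt (𝓡 n) 𝓘(ℝ, EE n) (fun q =>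
        (trivializationAt (EE n) (TangentSpace (𝓡 n) : M → Type) x
          (⟨q, Y q⟩ : TotalSpace (EE n) (TangentSpace (𝓡 n) : M → Type))).2) (chi x (ch x p : EE n)) := by
        rw [chi_ch hp]; exact h1
      exact h1'.comp (ch x p) h2
    exact h4.differentiableAt
  · intro h
    apply hiff.mpr
    have h2 : MDifferentiableAt (𝓡 n) 𝓘(ℝ, EE n) (ch x : M → EE n) p := by
      refine mdifferentiableAt_extChartAt ?_
      have := hp
      unfold src at this
      rwa [extChartAt_source] at this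
    have h3 : MDifferentiableAt (𝓡 n) 𝓘(ℝ, EE n) (vch Y x ∘ ch x) p :=
      h.mdifferentiableAt.comp p h2
    refine h3.congr_of_eventuallyEq ?_
    filter_upwards [(isOpen_src x).mem_nhds hp] with q hq
    show _ = vch Y x (ch x q)
    rw [vch_ch Y hq]
    rfl

/-- The constant field of the chart at `x`. -/
def cf (x : M) (b : EE n) : VF n M := fun q => uof x q b

theorem vch_cf {x : M} (b : EE n) {z : EE n} (hz : z ∈ tgt (EE n) x) : vch (cf x b) x z = b :=
  cof_uof (chi_mem hz) b

theorem cf_diffAt {x p : M} (hp : p ∈ src (EE n) x) (b : EE n) : DiffAt (cf x b) p := by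
  rw [diffAt_iff hp]
  have : vch (cf x b) x =ᶠ[𝓝 (ch x p)] fun _ => b := by
    filter_upwards [(isOpen_tgt (E := EE n) x).mem_nhds (ch_mem hp)] with z hz using vch_cf b hz
  exact (differentiableAt_const b).congr_of_eventuallyEq this

/-- The derivative of a function on `M` in charts. -/
theorem mfderiv_chart {F : Type} [NormedAddCommGroup F] [NormedSpace ℝ F] (f : EE n → F)
    {x p : M} (hp : p ∈ src (EE n) x) (hf : DifferentiableAt ℝ f (ch x p))
    (v : TangentSpace (𝓡 n) p) :
    mfderiv (𝓡 n) 𝓘(ℝ, F) (fun q => f (ch x q)) p v = fderiv ℝ f (ch x p) (cof x p v) := by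
  have h2 : MDifferentiableAt (𝓡 n) 𝓘(ℝ, EE n) (ch x : M → EE n) p := by
    refine mdifferentiableAt_extChartAt ?_
    have := hp
    unfold src at this
    rwa [extChartAt_source] at this
  have h3 : mfderiv (𝓡 n) 𝓘(ℝ, F) (f ∘ (ch x : M → EE n)) p =
      (mfderiv 𝓘(ℝ, EE n) 𝓘(ℝ, F) f (ch x p)).comp
        (mfderiv (𝓡 n) 𝓘(ℝ, EE n) (ch x : M → EE n) p) :=
    mfderiv_comp p hf.mdifferentiableAt h2
  have h4 : mfderiv (𝓡 n) 𝓘(ℝ, F) (fun q => f (ch x q)) p v =
    (mfderiv 𝓘(ℝ, EE n) 𝓘(ℝ, F) f (ch x p)) ((mfderiv (𝓡 n) 𝓘(ℝ, EE n)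
      (ch x : M → EE n) p) v) := by
    have := congrArg (fun L => L v) h3
    exact this
  rw [h4, mfderiv_eq_fderiv]
  have h5 : (mfderiv (𝓡 n) 𝓘(ℝ, EE n) (ch x : M → EE n) p) v = cof x p v := by
    have h6 := cofL_eq_mfderiv hp
    have h7 := cofL_apply hp v
    rw [h6] at h7
    exact h7
  exact congrArg _ h5

end Pool.Agent.Helper75.SR
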