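import Pool.Agent.Helper75.SR.Cov1

/-!
# Covariant derivatives and Lie brackets in charts, part 2: Lie brackets
-/

open Set Filter MeasureTheory Bundle
open scoped Manifold ContDiff Topology

noncomputable section

namespace Pool.Agent.Helper75.SR

open Pool.Agent.Helper54.SRD

variable {n : ℕ} {M : Type} [TopologicalSpace M] [ChartedSpace (EE n) M]
  [IsManifold (𝓡 n) ∞ M]

set_option backward.isDefEq.respectTransparency false in
/-- The Lie bracket at `p` in the chart at `p`. -/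
theorem mlie_own (Y Z : VF n M) (p : M) :
    (VectorField.mlieBracket (𝓡 n) Y Z p : EE n) =
      VectorField.lieBracket ℝ (vch Y p) (vch Z p) (ch p p) := by
  have key : ∀ Y : VF n M, (VectorField.mpullbackWithin 𝓘(ℝ, EE n) (𝓡 n)
      (extChartAt (𝓡 n) p).symm Y (range (𝓡 n)) : EE n → EE n) =ᶠ[𝓝 (ch p p)] vch Y p := by
    intro Y
    filter_upwards [(isOpen_tgt (E := EE n) p).mem_nhds (ch_mem (mem_src p))] with z hz
    rw [VectorField.mpullbackWithin_apply]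
    have h1 : (mfderivWithin 𝓘(ℝ, EE n) (𝓡 n) (extChartAt (𝓡 n) p).symm (range (𝓡 n)) z).inverse
        = mfderiv (𝓡 n) 𝓘(ℝ, EE n) (extChartAt (𝓡 n) p) ((extChartAt (𝓡 n) p).symm z) :=
      ContinuousLinearMap.inverse_eq
        (mfderivWithin_extChartAt_symm_comp_mfderiv_extChartAt hz)
        (mfderiv_extChartAt_comp_mfderivWithin_extChartAt_symm hz)
    rw [h1]
    have h2 := cofL_eq_mfderiv (n := n) (chi_mem (x := p) hz)
    have h3 := cofL_apply (n := n) (chi_mem (x := p) hz) (Y (chi p z))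
    rw [h2] at h3
    exact h3
  have h0 : ∀ w : EE n, ((mfderiv (𝓡 n) 𝓘(ℝ, EE n) (extChartAt (𝓡 n) p) p).inverse w : EE n)
      = w := by
    intro w
    have h1 : (mfderiv (𝓡 n) 𝓘(ℝ, EE n) (extChartAt (𝓡 n) p) p : EE n →L[ℝ] EE n) =
      ContinuousLinearMap.id ℝ (EE n) := mfderiv_extChartAt_self
    have h2 : ContinuousLinearMap.inverse
        (mfderiv (𝓡 n) 𝓘(ℝ, EE n) (extChartAt (𝓡 n) p) p : EE n →L[ℝ] EE n) =
        ContinuousLinearMap.id ℝ (EE n) := by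
      rw [h1]; exact ContinuousLinearMap.inverse_id
    exact congrArg (fun L => L w) h2
  have h6 := VectorField.mlieBracketWithin_apply (I := 𝓡 n) (V := Y) (W := Z) (s := univ)
    (x₀ := p)
  have hr : ((extChartAt (𝓡 n) p).symm ⁻¹' univ ∩ range (𝓡 n)) = (univ : Set (EE n)) := by
    simp
  refine h6.trans ?_
  refine (h0 _).trans ?_
  rw [hr, VectorField.lieBracketWithin_univ]
  exact (key Y).lieBracket_vectorField_eq (key Z)

/-- Naturality of the Lie bracket. -/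
theorem lie_nat {E : Type} [NormedAddCommGroup E] [NormedSpace ℝ E] {f Y₁ Z₁ Y₂ Z₂ : E → E}
    {z : E} (hf : ContDiffAt ℝ 2 f z) (hY₁ : DifferentiableAt ℝ Y₁ z)
    (hZ₁ : DifferentiableAt ℝ Z₁ z) (hY₂ : DifferentiableAt ℝ Y₂ (f z))
    (hZ₂ : DifferentiableAt ℝ Z₂ (f z)) (hYf : ∀ᶠ y in 𝓝 z, Y₂ (f y) = fderiv ℝ f y (Y₁ y))
    (hZf : ∀ᶠ y in 𝓝 z, Z₂ (f y) = fderiv ℝ f y (Z₁ y)) :
    fderiv ℝ Z₂ (f z) (Y₂ (f z)) - fderiv ℝ Y₂ (f z) (Z₂ (f z)) =
      fderiv ℝ f z (fderiv ℝ Z₁ z (Y₁ z) - fderiv ℝ Y₁ z (Z₁ z)) := by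
  have hfd : DifferentiableAt ℝ f z := hf.differentiableAt (by simp)
  have hf2 : DifferentiableAt ℝ (fderiv ℝ f) z :=
    (hf.fderiv_right (m := 1) (by norm_num)).differentiableAt (by simp)
  have key : ∀ (V₁ V₂ : E → E), DifferentiableAt ℝ V₁ z → DifferentiableAt ℝ V₂ (f z) →
      (∀ᶠ y in 𝓝 z, V₂ (f y) = fderiv ℝ f y (V₁ y)) → ∀ v,
      fderiv ℝ V₂ (f z) (fderiv ℝ f z v) =
        fderiv ℝ (fderiv ℝ f) z v (V₁ z) + fderiv ℝ f z (fderiv ℝ V₁ z v) := by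
    intro V₁ V₂ h1 h2 h3 v
    have a1 : HasFDerivAt (fun y => V₂ (f y)) ((fderiv ℝ V₂ (f z)).comp (fderiv ℝ f z)) z :=
      h2.hasFDerivAt.comp z hfd.hasFDerivAt
    have a2 := hf2.hasFDerivAt.clm_apply h1.hasFDerivAt
    have a3 := a1.unique (a2.congr_of_eventuallyEq h3)
    have a4 := congrArg (fun L => L v) a3
    simpa [add_comm] using a4
  have hs : fderiv ℝ (fderiv ℝ f) z (Y₁ z) (Z₁ z) = fderiv ℝ (fderiv ℝ f) z (Z₁ z) (Y₁ z) :=
    (hf.isSymmSndFDerivAt (by simp)).eq _ _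
  rw [hYf.self_of_nhds, hZf.self_of_nhds, key Z₁ Z₂ hZ₁ hZ₂ hZf, key Y₁ Y₂ hY₁ hY₂ hYf, hs,
    map_sub]
  abel

/-- The Lie bracket in an arbitrary chart. -/
theorem lie_chart {Y Z : VF n M} {x p : M} (hp : p ∈ src (EE n) x) (hY : DiffAt Y p)
    (hZ : DiffAt Z p) :
    cof x p (VectorField.mlieBracket (𝓡 n) Y Z p) =
      fderiv ℝ (vch Z x) (ch x p) (vch Y x (ch x p)) -
        fderiv ℝ (vch Y x) (ch x p) (vch Z x (ch x p)) := by
  have h1 : (ch p p : EE n) ∈ ov p x := mem_ov (mem_src p) hp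
  have h3 : (tr p x (ch p p) : EE n) = ch x p := tr_ch (mem_src p)
  have hY1 := (diffAt_iff (mem_src p)).mp hY
  have hZ1 := (diffAt_iff (mem_src p)).mp hZ
  have hY2 := (diffAt_iff hp).mp hY
  have hZ2 := (diffAt_iff hp).mp hZ
  rw [← h3] at hY2 hZ2
  have hYf : ∀ᶠ y in 𝓝 (ch p p : EE n), vch Y x (tr p x y) = fderiv ℝ (tr p x) y (vch Y p y) := by
    filter_upwards [(isOpen_ov p x).mem_nhds h1] with z hz using vch_trans Y p x z hz
  have hZf : ∀ᶠ y in 𝓝 (ch p p : EE n), vch Z x (tr p x y) = fderiv ℝ (tr p x) y (vch Z p y) := by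
    filter_upwards [(isOpen_ov p x).mem_nhds h1] with z hz using vch_trans Z p x z hz
  have h4 := lie_nat ((contDiffAt_tr h1).of_le (WithTop.coe_le_coe.mpr le_top)) hY1 hZ1 hY2 hZ2 hYf hZf
  rw [h3] at h4
  rw [h4, cof_eq]
  congr 1
  exact mlie_own Y Z p

/-- Constant fields commute. -/
theorem lie_cf {x p : M} (hp : p ∈ src (EE n) x) (a b : EE n) :
    VectorField.mlieBracket (𝓡 n) (cf x a) (cf x b) p = 0 := by
  have h1 := lie_chart hp (cf_diffAt hp a) (cf_diffAt hp b)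
  have hc : ∀ b : EE n, fderiv ℝ (vch (cf x b) x) (ch x p) = 0 := by
    intro b
    have : vch (cf x b) x =ᶠ[𝓝 (ch x p)] fun _ => b := by
      filter_upwards [(isOpen_tgt (E := EE n) x).mem_nhds (ch_mem hp)] with z hz
        using vch_cf b hz
    rw [this.fderiv_eq]
    simp
  rw [hc, hc] at h1
  have h2 := uof_cof hp (VectorField.mlieBracket (𝓡 n) (cf x a) (cf x b) p)
  rw [h1] at h2
  rw [← h2, ← uofL_apply hp]
  simp

end Pool.Agent.Helper75.SR
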