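import Pool.Agent.Helper75.SR.Cov2

/-!
# Covariant derivatives in charts, part 3: the local formula
-/

open Set Filter MeasureTheory Bundle
open scoped Manifold ContDiff Topology

noncomputable section

namespace Pool.Agent.Helper75.SR

open Pool.Agent.Helper54.SRD

variable {n : ℕ} {M : Type} [TopologicalSpace M] [ChartedSpace (EE n) M]
  [IsManifold (𝓡 n) ∞ M]

theorem DiffAt.sum {ι : Type} {p : M} (s : Finset ι) (σ : ι → VF n M)
    (h : ∀ i ∈ s, DiffAt (σ i) p) : DiffAt (fun q => ∑ i ∈ s, σ i q) p :=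
  MDifferentiableAt.sum_section h

theorem DiffAt.smul {p : M} {c : M → ℝ} {σ : VF n M}
    (hc : MDifferentiableAt (𝓡 n) 𝓘(ℝ, ℝ) c p) (h : DiffAt σ p) :
    DiffAt (fun q => c q • σ q) p :=
  MDifferentiableAt.smul_section hc h

theorem cov_sum (cov : Conn n M) {ι : Type} {p : M} (s : Finset ι) (σ : ι → VF n M)
    (h : ∀ i ∈ s, DiffAt (σ i) p) :
    cov (fun q => ∑ i ∈ s, σ i q) p = ∑ i ∈ s, cov (σ i) p := by
  classical
  induction s using Finset.induction_on with
  | empty =>
    simp only [Finset.sum_empty]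
    have h0 := congrFun (CovariantDerivative.zero cov) p
    exact h0
  | insert i s hi ih =>
    have h1 : DiffAt (σ i) p := h i (Finset.mem_insert_self i s)
    have h2 : ∀ j ∈ s, DiffAt (σ j) p := fun j hj => h j (Finset.mem_insert_of_mem hj)
    have h3 : (fun q => ∑ j ∈ insert i s, σ j q) = σ i + fun q => ∑ j ∈ s, σ j q := by
      funext q
      rw [Finset.sum_insert hi]
      rfl
    rw [h3, Finset.sum_insert hi, ← ih h2]
    exact cov.isCovariantDerivativeOnUniv.add h1 (DiffAt.sum s σ h2)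

/-- Derivative of a function in the direction of a tangent vector. -/
def dF (c : M → ℝ) (p : M) (v : TangentSpace (𝓡 n) p) : ℝ := mfderiv (𝓡 n) 𝓘(ℝ, ℝ) c p v

theorem cov_smul (cov : Conn n M) {p : M} {c : M → ℝ} {σ : VF n M}
    (hc : MDifferentiableAt (𝓡 n) 𝓘(ℝ, ℝ) c p) (h : DiffAt σ p) (v : TangentSpace (𝓡 n) p) :
    cov (fun q => c q • σ q) p v =
      c p • cov σ p v + dF c p v • σ p := by
  have h1 := cov.isCovariantDerivativeOnUniv.leibniz (g := c) h hc
  have h2 := congrArg (fun L => L v) h1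
  exact h2

theorem cov_congr (cov : Conn n M) {p : M} {σ τ : VF n M} (hσ : DiffAt σ p) (hτ : DiffAt τ p)
    (h : ∀ᶠ q in 𝓝 p, σ q = τ q) : cov σ p = cov τ p :=
  cov.isCovariantDerivativeOnUniv.congr_of_eventuallyEq hσ hτ Filter.univ_mem h

/-- Standard basis vectors. -/
def eb (n : ℕ) (i : Fin n) : EE n := EuclideanSpace.single i (1 : ℝ)

theorem sum_eb (v : EE n) : v = ∑ i, v i • eb n i := by
  have := (EuclideanSpace.basisFun (Fin n) ℝ).sum_repr v
  simpa [eb] using this.symm

/-- The Christoffel map of a connection in a chart. -/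
def gam0 (cov : Conn n M) (x : M) (z a b : EE n) : EE n :=
  cof x (chi x z) (cov (cf x b) (chi x z) (uof x (chi x z) a))

theorem cof_add {x p : M} (hp : p ∈ src (EE n) x) (v w : TangentSpace (𝓡 n) p) :
    cof x p (v + w) = cof x p v + cof x p w := by
  rw [← cofL_apply hp, ← cofL_apply hp, ← cofL_apply hp, map_add]

theorem cof_smul {x p : M} (hp : p ∈ src (EE n) x) (c : ℝ) (v : TangentSpace (𝓡 n) p) :
    cof x p (c • v) = c • cof x p v := by
  rw [← cofL_apply hp, ← cofL_apply hp, map_smul]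

theorem cof_sum {x p : M} (hp : p ∈ src (EE n) x) {ι : Type} (s : Finset ι)
    (v : ι → TangentSpace (𝓡 n) p) :
    cof x p (∑ i ∈ s, v i) = ∑ i ∈ s, cof x p (v i) := by
  rw [← cofL_apply hp, map_sum]
  exact Finset.sum_congr rfl fun i _ => cofL_apply hp _

theorem cof_sub {x p : M} (hp : p ∈ src (EE n) x) (v w : TangentSpace (𝓡 n) p) :
    cof x p (v - w) = cof x p v - cof x p w := by
  rw [← cofL_apply hp, ← cofL_apply hp, ← cofL_apply hp, map_sub]

theorem cof_neg {x p : M} (hp : p ∈ src (EE n) x) (v : TangentSpace (𝓡 n) p) :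
    cof x p (-v) = - cof x p v := by
  rw [← cofL_apply hp, ← cofL_apply hp, map_neg]

theorem cof_zero {x p : M} (hp : p ∈ src (EE n) x) :
    cof x p (0 : TangentSpace (𝓡 n) p) = 0 := by
  rw [← cofL_apply hp, map_zero]

theorem mdiff_coord {f : EE n → EE n} {x p : M} (hp : p ∈ src (EE n) x)
    (hf : DifferentiableAt ℝ f (ch x p)) (i : Fin n) :
    MDifferentiableAt (𝓡 n) 𝓘(ℝ, ℝ) (fun q => f (ch x q) i) p := by
  have h2 : MDifferentiableAt (𝓡 n) 𝓘(ℝ, EE n) (ch x : M → EE n) p := by
    refine mdifferentiableAt_extChartAt ?_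
    have := hp
    unfold src at this
    rwa [extChartAt_source] at this
  have h3 : DifferentiableAt ℝ (fun y => f y i) (ch x p) :=
    (EuclideanSpace.proj i : EE n →L[ℝ] ℝ).differentiableAt.comp _ hf
  exact h3.mdifferentiableAt.comp p h2

/-- The local formula, first version. -/
theorem cov_chart0 (cov : Conn n M) {x p : M} (hp : p ∈ src (EE n) x) {Y : VF n M}
    (hY : DiffAt Y p) (v : TangentSpace (𝓡 n) p) :
    cof x p (cov Y p v) = fderiv ℝ (vch Y x) (ch x p) (cof x p v) +
      ∑ i, vch Y x (ch x p) i • gam0 cov x (ch x p) (cof x p v) (eb n i) := by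
  have hd := (diffAt_iff hp).mp hY
  have hexp : ∀ᶠ q in 𝓝 p, Y q = ∑ i, vch Y x (ch x q) i • cf x (eb n i) q := by
    filter_upwards [(isOpen_src x).mem_nhds hp] with q hq
    have h1 := uof_cof hq (Y q)
    rw [← vch_ch Y hq] at h1
    rw [← h1]
    conv_lhs => rw [sum_eb (vch Y x (ch x q))]
    rw [← uofL_apply hq, map_sum]
    refine Finset.sum_congr rfl fun i _ => ?_
    rw [map_smul, uofL_apply hq]
    rfl
  have hdi : ∀ i ∈ (Finset.univ : Finset (Fin n)),
      DiffAt (fun q => vch Y x (ch x q) i • cf x (eb n i) q) p := fun i _ =>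
    DiffAt.smul (mdiff_coord hp hd i) (cf_diffAt hp _)
  rw [cov_congr cov hY (DiffAt.sum _ _ hdi) hexp, cov_sum cov _ _ hdi]
  have h5 : (∑ i, cov (fun q => vch Y x (ch x q) i • cf x (eb n i) q) p) v =
      ∑ i, (vch Y x (ch x p) i • cov (cf x (eb n i)) p v +
        (fderiv ℝ (vch Y x) (ch x p) (cof x p v)) i • cf x (eb n i) p) := by
    rw [sum_apply]
    refine Finset.sum_congr rfl fun i _ => ?_
    rw [cov_smul cov (mdiff_coord hp hd i) (cf_diffAt hp _)]
    congr 2
    have h3 : DifferentiableAt ℝ (fun y => vch Y x y i) (ch x p) :=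
      (EuclideanSpace.proj i : EE n →L[ℝ] ℝ).differentiableAt.comp _ hd
    have h4 := mfderiv_chart (fun y => vch Y x y i) hp h3 v
    refine h4.trans ?_
    have h6 : HasFDerivAt (fun y => vch Y x y i)
        ((EuclideanSpace.proj i : EE n →L[ℝ] ℝ).comp (fderiv ℝ (vch Y x) (ch x p))) (ch x p) :=
      (EuclideanSpace.proj i : EE n →L[ℝ] ℝ).hasFDerivAt.comp _ hd.hasFDerivAt
    rw [h6.fderiv]
    rfl
  rw [h5, cof_sum hp]
  have h7 : ∀ i, cof x p (vch Y x (ch x p) i • cov (cf x (eb n i)) p v +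
        (fderiv ℝ (vch Y x) (ch x p) (cof x p v)) i • cf x (eb n i) p) =
      vch Y x (ch x p) i • gam0 cov x (ch x p) (cof x p v) (eb n i) +
        (fderiv ℝ (vch Y x) (ch x p) (cof x p v)) i • eb n i := by
    intro i
    rw [cof_add hp, cof_smul hp, cof_smul hp]
    congr 1
    · unfold gam0
      congr 1
      rw [chi_ch hp, uof_cof hp]
    · congr 1
      exact cof_uof hp _
  rw [Finset.sum_congr rfl fun i _ => h7 i, Finset.sum_add_distrib, ← sum_eb, add_comm]

/-- `gam0` is linear in the last argument. -/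
theorem gam0_sum (cov : Conn n M) {x p : M} (hp : p ∈ src (EE n) x) (a b : EE n) :
    gam0 cov x (ch x p) a b = ∑ i, b i • gam0 cov x (ch x p) a (eb n i) := by
  have h1 := cov_chart0 cov hp (cf_diffAt hp b) (uof x p a)
  have hc : fderiv ℝ (vch (cf x b) x) (ch x p) = 0 := by
    have : vch (cf x b) x =ᶠ[𝓝 (ch x p)] fun _ => b := by
      filter_upwards [(isOpen_tgt (E := EE n) x).mem_nhds (ch_mem hp)] with z hz
        using vch_cf b hz
    rw [this.fderiv_eq]
    simp
  rw [hc, vch_cf b (ch_mem hp), cof_uof hp] at h1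
  have h2 : cof x p (cov (cf x b) p (uof x p a)) = gam0 cov x (ch x p) a b := by
    unfold gam0
    rw [chi_ch hp]
  rw [h2] at h1
  simpa using h1

/-- The local formula. -/
theorem cov_chart1 (cov : Conn n M) {x p : M} (hp : p ∈ src (EE n) x) {Y : VF n M}
    (hY : DiffAt Y p) (v : TangentSpace (𝓡 n) p) :
    cof x p (cov Y p v) = fderiv ℝ (vch Y x) (ch x p) (cof x p v) +
      gam0 cov x (ch x p) (cof x p v) (vch Y x (ch x p)) := by
  rw [cov_chart0 cov hp hY, gam0_sum cov hp _ (vch Y x (ch x p))]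

end Pool.Agent.Helper75.SR
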