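import Pool.Agent.Helper75.SR.Loc

/-!
# MP_d08e19_gt: chart-level goals
-/

namespace Pool.Agent.Helper75.SR

open scoped ContDiff Topology
open Real

/-- Algebra of the tensors `φ_a` and the Reeb fields. -/
def GAlg : Prop :=
  ∀ (E : Type) [NormedAddCommGroup E] [NormedSpace ℝ E] (U : Set E) (S : LocSas E U)
    (x : E), x ∈ U → ∀ (a : Fin 3) (v : E),
    S.phi a x (S.xi a x) = 0 ∧
    S.phi a x (S.xi (a + 1) x) = S.xi (a + 2) x ∧
    S.phi a x (S.xi (a + 2) x) = - S.xi (a + 1) x ∧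
    S.phi a x (S.phi a x v) = -v + S.g x (S.xi a x) v • S.xi a x ∧
    S.phi a x (S.phi (a + 1) x v) = S.phi (a + 2) x v + S.g x (S.xi (a + 1) x) v • S.xi a x ∧
    S.phi a x (S.phi (a + 2) x v) = - S.phi (a + 1) x v + S.g x (S.xi (a + 2) x) v • S.xi a x

/-- Curvature identities. -/
def GCurv : Prop :=
  ∀ (E : Type) [NormedAddCommGroup E] [NormedSpace ℝ E] (U : Set E) (S : LocSas E U)
    (x : E), x ∈ U → ∀ (a : Fin 3) (u v w z : E),
    S.R x u v w = - S.R x v u w ∧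
    S.g x (S.R x u v w) z = - S.g x w (S.R x u v z) ∧
    S.R x u v w + S.R x v w u + S.R x w u v = 0 ∧
    S.g x (S.R x u v w) z = S.g x (S.R x w z u) v ∧
    S.R x u v (S.xi a x) = S.g x (S.xi a x) v • u - S.g x (S.xi a x) u • v ∧
    S.R x u v (S.phi a x w) - S.phi a x (S.R x u v w) =
      S.g x (S.phi a x u) w • v - S.g x v w • S.phi a x u
        - S.g x (S.phi a x v) w • u + S.g x u w • S.phi a x v

/-- The trace identity on horizontal vectors. -/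
def GTrace : Prop :=
  ∀ (E : Type) [NormedAddCommGroup E] [NormedSpace ℝ E] (U : Set E) (S : LocSas E U)
    (x : E), x ∈ U → ∀ X : E, (∀ a, S.g x (S.xi a x) X = 0) →
    ∑ a : Fin 3, S.g x (S.R x (S.phi a x X) X X) (S.phi a x X) = 3 * (S.g x X X) ^ 2

/-- First and second variation of the energy integrand of `G_β = g + β ∑ η_a²` along the jet
`x + s V + s²/2 W`, velocity `T + s V' + s²/2 W'`, where `W = - Γ(V,V)` and
`W' = - DΓ(T)(V,V) - 2 Γ(V,V')`. -/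
def GTaylor : Prop :=
  ∀ (E : Type) [NormedAddCommGroup E] [NormedSpace ℝ E] (U : Set E) (S : LocSas E U)
    (β : ℝ) (x : E), x ∈ U → ∀ T V V' W W' : E,
    W = - S.Gam x V V → W' = - fderiv ℝ S.Gam x T V V - (2 : ℝ) • S.Gam x V V' →
    ∀ F : ℝ → ℝ, F = (fun s => S.Gb β (x + s • V + (s ^ 2 / 2) • W)
        (T + s • V' + (s ^ 2 / 2) • W') (T + s • V' + (s ^ 2 / 2) • W')) →
    deriv F 0 = 2 * (S.g x (S.D x T V V') T
      + β * ∑ a : Fin 3, S.g x (S.xi a x) T * S.dEta a x T V V') ∧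
    deriv (deriv F) 0 = 2 * S.QQ β x T V V'

/-- The Euler-Lagrange equation of `G_β` at a point: `T` velocity, `A` its derivative. -/
def GEL : Prop :=
  ∀ (E : Type) [NormedAddCommGroup E] [NormedSpace ℝ E] (U : Set E) (S : LocSas E U)
    (β : ℝ), 0 ≤ β → ∀ x ∈ U, ∀ T A : E,
    (∀ V : E, fderiv ℝ (S.Gb β) x T T V + S.Gb β x A V = (1 / 2) * fderiv ℝ (S.Gb β) x V T T) →
    A + S.Gam x T T = (2 * β) • ∑ a : Fin 3, S.g x (S.xi a x) T • S.phi a x T ∧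
    ∀ b, S.g x (S.xi b x) (A + S.Gam x T T) = 0

/-- The real quadratic form: second variation integrand for
`V = p e + ∑ f_a φ_a e + ∑ g_a ξ_a`, where `T = τ e + w ξ_0`, `κ = 2 (1+β) w - w`. Derivatives of
the coefficients are `p' f' g'`, and `Rm a b = g(R(φ_a e, e) e, φ_b e)`. -/
noncomputable def qq (β τ w : ℝ) (Rm : Fin 3 → Fin 3 → ℝ) (p p' : ℝ) (f f' g g' : Fin 3 → ℝ) : ℝ :=
  let κ := 2 * (1 + β) * w - w
  let d0 := p' - κ * f 0
  let d1 := f' 0 + κ * p - τ * g 0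
  let d2 := f' 1 + κ * f 2 - τ * g 1
  let d3 := f' 2 - κ * f 1 - τ * g 2
  let d4 := g' 0 + τ * f 0
  let d5 := g' 1 + τ * f 1 - w * g 2
  let d6 := g' 2 + τ * f 2 + w * g 1
  d0 ^ 2 + d1 ^ 2 + d2 ^ 2 + d3 ^ 2 + d4 ^ 2 + d5 ^ 2 + d6 ^ 2
    - (τ ^ 2 * (∑ a, ∑ b, Rm a b * f a * f b) + τ ^ 2 * (g 0 ^ 2 + g 1 ^ 2 + g 2 ^ 2)
        - 2 * w * τ * p * g 0
        + w ^ 2 * (p ^ 2 + f 0 ^ 2 + f 1 ^ 2 + f 2 ^ 2 + g 1 ^ 2 + g 2 ^ 2))
    + β * ((g' 0 + 2 * τ * f 0) ^ 2 + (g' 1 + 2 * τ * f 1 - 2 * w * g 2) ^ 2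
        + (g' 2 + 2 * τ * f 2 + 2 * w * g 1) ^ 2
        + w * (-2 * w * (p ^ 2 + f 0 ^ 2 + f 1 ^ 2 + f 2 ^ 2 + g 0 ^ 2 + g 1 ^ 2 + g 2 ^ 2)
          + 2 * g 0 * (τ * p + w * g 0)
          - 2 * (-f 0 * d0 + p * d1 - f 2 * d2 + f 1 * d3 - g 2 * d5 + g 1 * d6)))

/-- The second variation integrand in the moving frame `e, φ_a e, ξ_a`. -/
def GFrame : Prop :=
  ∀ (E : Type) [NormedAddCommGroup E] [NormedSpace ℝ E] (U : Set E) (S : LocSas E U)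
    (β τ w : ℝ) (x : E), x ∈ U → ∀ e : E, (∀ a, S.g x (S.xi a x) e = 0) → S.g x e e = 1 →
    ∀ (p p' : ℝ) (f f' g g' : Fin 3 → ℝ) (V V' : E),
    V = p • e + ∑ a, f a • S.phi a x e + ∑ a, g a • S.xi a x →
    S.D x (τ • e + w • S.xi 0 x) V V' =
      (p' - (2 * (1 + β) * w - w) * f 0) • e
      + (f' 0 + (2 * (1 + β) * w - w) * p - τ * g 0) • S.phi 0 x e
      + (f' 1 + (2 * (1 + β) * w - w) * f 2 - τ * g 1) • S.phi 1 x e
      + (f' 2 - (2 * (1 + β) * w - w) * f 1 - τ * g 2) • S.phi 2 x e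
      + (g' 0 + τ * f 0) • S.xi 0 x
      + (g' 1 + τ * f 1 - w * g 2) • S.xi 1 x
      + (g' 2 + τ * f 2 + w * g 1) • S.xi 2 x →
    S.QQ β x (τ • e + w • S.xi 0 x) V V' =
      qq β τ w (fun a b => S.g x (S.R x (S.phi a x e) e e) (S.phi b x e)) p p' f f' g g'

/-- The derivative of `V = p e + ∑ f_a φ_a e + ∑ g_a ξ_a` along a curve with velocity
`T = τ e + w ξ_0` when `D_T e = κ φ_0 e`. -/
def GDer : Prop :=
  ∀ (E : Type) [NormedAddCommGroup E] [NormedSpace ℝ E] (U : Set E) (S : LocSas E U)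
    (κ τ w t : ℝ) (γ e : ℝ → E) (p : ℝ → ℝ) (f g : Fin 3 → ℝ → ℝ) (e' : E) (p' : ℝ)
    (f' g' : Fin 3 → ℝ), γ t ∈ U →
    (∀ a, S.g (γ t) (S.xi a (γ t)) (e t) = 0) → S.g (γ t) (e t) (e t) = 1 →
    HasDerivAt γ (τ • e t + w • S.xi 0 (γ t)) t → HasDerivAt e e' t →
    HasDerivAt p p' t → (∀ a, HasDerivAt (f a) (f' a) t) → (∀ a, HasDerivAt (g a) (g' a) t) →
    S.D (γ t) (τ • e t + w • S.xi 0 (γ t)) (e t) e' = κ • S.phi 0 (γ t) (e t) →
    ∃ V' : E, HasDerivAt (fun s => p s • e s + ∑ a, f a s • S.phi a (γ s) (e s)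
        + ∑ a, g a s • S.xi a (γ s)) V' t ∧
      S.D (γ t) (τ • e t + w • S.xi 0 (γ t))
        (p t • e t + ∑ a, f a t • S.phi a (γ t) (e t) + ∑ a, g a t • S.xi a (γ t)) V' =
      (p' - κ * f 0 t) • e t
      + (f' 0 + κ * p t - τ * g 0 t) • S.phi 0 (γ t) (e t)
      + (f' 1 + κ * f 2 t - τ * g 1 t) • S.phi 1 (γ t) (e t)
      + (f' 2 - κ * f 1 t - τ * g 2 t) • S.phi 2 (γ t) (e t)
      + (g' 0 + τ * f 0 t) • S.xi 0 (γ t)
      + (g' 1 + τ * f 1 t - w * g 2 t) • S.xi 1 (γ t)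
      + (g' 2 + τ * f 2 t + w * g 1 t) • S.xi 2 (γ t)

/-- `Z = H e^{2ivt}`, `H = 1 - cos (k t)`: real part, imaginary part and their derivatives;
`j = 0,1,2` derivative order, `m = 0` real part, `m = 1` imaginary part. -/
noncomputable def Hh (k t : ℝ) : ℝ := 1 - cos (k * t)

noncomputable def ZR (k v t : ℝ) : ℝ := Hh k t * cos (2 * v * t)
noncomputable def ZI (k v t : ℝ) : ℝ := Hh k t * sin (2 * v * t)

/-- Field coefficients `(p, f, g)` of the four variation fields, `i : Fin 4`. -/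
noncomputable def fldP (β k w : ℝ) (i : Fin 4) (t : ℝ) : ℝ :=
  let v := (1 + β) * w
  match i with
  | 0 => 2 * v * ZR k v t
  | 1 => 2 * v * ZI k v t
  | 2 => 0
  | 3 => 0

/-- `z = Z'`, and `ζ = e^{-2iwt} z`, `ζ_G = -2 τ e^{-2iwt} Z`. -/
noncomputable def fldF (β k w : ℝ) (i : Fin 4) (a : Fin 3) (t : ℝ) : ℝ :=
  let v := (1 + β) * w
  let zr := deriv (ZR k v) t
  let zi := deriv (ZI k v) t
  let cr := cos (2 * w * t) * zr + sin (2 * w * t) * zi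
  let ci := cos (2 * w * t) * zi - sin (2 * w * t) * zr
  match i, a with
  | 0, 0 => zr
  | 1, 0 => zi
  | 2, 1 => cr
  | 2, 2 => ci
  | 3, 1 => -ci
  | 3, 2 => cr
  | _, _ => 0

noncomputable def fldG (β k τ w : ℝ) (i : Fin 4) (a : Fin 3) (t : ℝ) : ℝ :=
  let v := (1 + β) * w
  let zr := -2 * τ * ZR k v t
  let zi := -2 * τ * ZI k v t
  let cr := cos (2 * w * t) * zr + sin (2 * w * t) * zi
  let ci := cos (2 * w * t) * zi - sin (2 * w * t) * zr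
  match i, a with
  | 0, 0 => zr
  | 1, 0 => zi
  | 2, 1 => cr
  | 2, 2 => ci
  | 3, 1 => -ci
  | 3, 2 => cr
  | _, _ => 0

/-- Sum of the four second variations: the curvature disappears pointwise (trace 3) and the
integral is explicit. -/
def GSum : Prop :=
  ∀ (β τ w L : ℝ), 0 < L → ∀ Φ : ℝ → ℝ,
    (∀ t, ∃ Rm : Fin 3 → Fin 3 → ℝ, (∀ a b, Rm a b = Rm b a) ∧ ∑ a, Rm a a = 3 ∧
      Φ t = ∑ i : Fin 4, qq β τ w Rm
        (fldP β (2 * π / L) w i t) (deriv (fldP β (2 * π / L) w i) t)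
        (fun a => fldF β (2 * π / L) w i a t) (fun a => deriv (fldF β (2 * π / L) w i a) t)
        (fun a => fldG β (2 * π / L) τ w i a t)
        (fun a => deriv (fldG β (2 * π / L) τ w i a) t)) →
    Continuous Φ ∧
    ∫ t in (0 : ℝ)..L, Φ t =
      (3 * L / 2) * ((2 * π / L) ^ 2 - 4 * τ ^ 2) * ((2 * π / L) ^ 2 + 4 * ((1 + β) * w) ^ 2)

/-- One block-1 field, for the bound on `v = (1+β) w`. -/
def GOne : Prop :=
  ∀ (β τ w L K : ℝ), 0 < L → 0 ≤ K → ∀ Φ : ℝ → ℝ, IntervalIntegrable Φ MeasureTheory.volume 0 L →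
    (∀ t, ∃ Rm : Fin 3 → Fin 3 → ℝ, |Rm 0 0| ≤ K ∧
      Φ t = qq β τ w Rm
        (2 * ((1 + β) * w) * (L / (2 * π)) * (1 - cos (2 * π / L * t)))
        (2 * ((1 + β) * w) * sin (2 * π / L * t))
        ![sin (2 * π / L * t), 0, 0] ![2 * π / L * cos (2 * π / L * t), 0, 0]
        ![-2 * τ * (L / (2 * π)) * (1 - cos (2 * π / L * t)), 0, 0]
        ![-2 * τ * sin (2 * π / L * t), 0, 0]) →
    ∫ t in (0 : ℝ)..L, Φ t ≤
      (L / 2) * ((2 * π / L) ^ 2 - 4 * ((1 + β) * w) ^ 2 + K * τ ^ 2)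

end Pool.Agent.Helper75.SR
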