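import Mathlib

/-!
# 3-Sasakian geometry in a chart

`LocSas E U`: the chart expression, on an open set `U` of a normed space `E`, of a 3-Sasakian
structure: metric `g`, Christoffel symbols `Gam` of its Levi-Civita connection, Reeb fields `xi`.
-/

namespace Pool.Agent.Helper75.SR

open scoped ContDiff Topology

variable {E : Type} [NormedAddCommGroup E] [NormedSpace ℝ E]

/-- `φ v = - ∇_v ξ` in a chart. -/
noncomputable def phiOf (Gam : E → E →L[ℝ] E →L[ℝ] E) (xi : E → E) (x : E) : E →L[ℝ] E :=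
  -(fderiv ℝ xi x + (Gam x).flip (xi x))

theorem phiOf_apply (Gam : E → E →L[ℝ] E →L[ℝ] E) (xi : E → E) (x v : E) :
    phiOf Gam xi x v = -(fderiv ℝ xi x v + Gam x v (xi x)) := by
  simp [phiOf, ContinuousLinearMap.flip_apply]

/-- The chart expression of a 3-Sasakian structure on an open set `U`. -/
structure LocSas (E : Type) [NormedAddCommGroup E] [NormedSpace ℝ E] (U : Set E) where
  g : E → E →L[ℝ] E →L[ℝ] ℝ
  Gam : E → E →L[ℝ] E →L[ℝ] E
  xi : Fin 3 → E → E
  isOpen : IsOpen U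
  g_smooth : ContDiffOn ℝ ∞ g U
  Gam_smooth : ContDiffOn ℝ ∞ Gam U
  xi_smooth : ∀ a, ContDiffOn ℝ ∞ (xi a) U
  g_symm : ∀ x ∈ U, ∀ v w, g x v w = g x w v
  g_pos : ∀ x ∈ U, ∀ v, v ≠ 0 → 0 < g x v v
  Gam_symm : ∀ x ∈ U, ∀ v w, Gam x v w = Gam x w v
  compat : ∀ x ∈ U, ∀ a v w,
    fderiv ℝ g x a v w = g x (Gam x a v) w + g x v (Gam x a w)
  orth : ∀ x ∈ U, ∀ a b, g x (xi a x) (xi b x) = if a = b then 1 else 0
  killing : ∀ x ∈ U, ∀ a v w,
    g x (phiOf Gam (xi a) x v) w = - g x v (phiOf Gam (xi a) x w)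
  sasaki : ∀ x ∈ U, ∀ a v w,
    fderiv ℝ (phiOf Gam (xi a)) x v w + Gam x v (phiOf Gam (xi a) x w)
      - phiOf Gam (xi a) x (Gam x v w) = g x v w • xi a x - g x (xi a x) w • v
  lie : ∀ x ∈ U, ∀ a, fderiv ℝ (xi (a + 1)) x (xi a x) - fderiv ℝ (xi a) x (xi (a + 1) x)
    = (2 : ℝ) • xi (a + 2) x

namespace LocSas

variable {U : Set E} (S : LocSas E U)

/-- `φ_a v = - ∇_v ξ_a` -/
noncomputable def phi (a : Fin 3) (x : E) : E →L[ℝ] E := phiOf S.Gam (S.xi a) x

/-- covariant derivative `D_T V` of a vector field `V` (with derivative `V'`) along a curve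
through `x` with velocity `T` -/
noncomputable def D (x T V V' : E) : E := V' + S.Gam x T V

/-- Curvature `R(u,v)w` of the connection. -/
noncomputable def R (x u v w : E) : E :=
  fderiv ℝ S.Gam x u v w - fderiv ℝ S.Gam x v u w
    + S.Gam x u (S.Gam x v w) - S.Gam x v (S.Gam x u w)

/-- First variation of `η_a(velocity)`. -/
noncomputable def dEta (a : Fin 3) (x T V V' : E) : ℝ :=
  S.g x (S.xi a x) (S.D x T V V') + S.g x (S.phi a x T) V

/-- Second variation of `η_a(velocity)` along a variation with `∇_s ∂_s = 0`. -/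
noncomputable def ddEta (a : Fin 3) (x T V V' : E) : ℝ :=
  -2 * S.g x (S.xi a x) T * S.g x V V + 2 * S.g x (S.xi a x) V * S.g x V T
    - 2 * S.g x (S.D x T V V') (S.phi a x V)

/-- The metric `g + β ∑ η_a ⊗ η_a` -/
noncomputable def Gb (β : ℝ) (x : E) : E →L[ℝ] E →L[ℝ] ℝ :=
  S.g x + β • ∑ a : Fin 3, (S.g x (S.xi a x)).smulRight (S.g x (S.xi a x))

/-- The integrand of the second variation of the energy of `G_β`. -/
noncomputable def QQ (β : ℝ) (x T V V' : E) : ℝ :=
  S.g x (S.D x T V V') (S.D x T V V') - S.g x (S.R x V T T) V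
    + β * ∑ a : Fin 3, ((S.dEta a x T V V') ^ 2 + S.g x (S.xi a x) T * S.ddEta a x T V V')

theorem Gb_apply (β : ℝ) (x v w : E) :
    S.Gb β x v w = S.g x v w + β * ∑ a : Fin 3, S.g x (S.xi a x) v * S.g x (S.xi a x) w := by
  simp [Gb, ContinuousLinearMap.smulRight_apply, Finset.mul_sum]

end LocSas

end Pool.Agent.Helper75.SR
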